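import Pool.Agent.R364.Gun.Search

set_option autoImplicit false

namespace Pool.Agent.R364.Gun

def T0 : Tr :=
  (.node .nil (.node .nil .nil (.node (.node .nil .nil (.node (.node .nil (.node .nil .nil
  (.node .nil (.node .nil .nil (.node .nil (.node .nil .nil (.node .nil (.node .nil .nil (.node
  .nil (.leaf 3 1) .nil .nil .nil) .nil .nil) .nil .nil .nil) .nil .nil) .nil .nil .nil) .nil
  .nil) .nil .nil .nil) .nil .nil) .nil .nil .nil) .nil .nil .nil .nil) .nil .nil) (.node .nil
  .nil (.node .nil (.node .nil .nil (.node .nil (.node .nil .nil (.node (.node .nil .nil (.node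
  (.node .nil (.node .nil .nil (.node .nil (.leaf 3 1) .nil .nil .nil) .nil .nil) .nil .nil
  .nil) .nil .nil .nil .nil) .nil .nil) .nil .nil .nil .nil) .nil .nil) .nil .nil .nil) .nil
  .nil) .nil .nil .nil) .nil .nil) .nil .nil .nil) .nil .nil) (.node .nil (.node .nil .nil
  (.node .nil (.node .nil .nil (.node .nil (.node .nil .nil (.node .nil (.node .nil .nil (.node
  .nil (.node .nil .nil (.node .nil (.node .nil .nil (.node .nil (.leaf 4 1) .nil .nil .nil)
  .nil .nil) .nil .nil .nil) .nil .nil) .nil .nil .nil) .nil .nil) .nil .nil .nil) .nil .nil)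
  .nil .nil .nil) .nil .nil) .nil .nil .nil) .nil .nil) .nil .nil .nil) .nil .nil)

def T1 : Tr :=
  (.node (.node .nil .nil (.node (.node .nil (.node .nil .nil (.node .nil (.node .nil .nil
  (.node .nil (.node .nil .nil (.node .nil (.node .nil .nil (.node .nil (.node .nil .nil (.node
  .nil (.leaf 4 1) .nil .nil .nil) .nil .nil) .nil .nil .nil) .nil .nil) .nil .nil .nil) .nil
  .nil) .nil .nil .nil) .nil .nil) .nil .nil .nil) .nil .nil) .nil .nil .nil) .nil .nil .nil
  .nil) .nil .nil) (.node (.node .nil .nil (.node (.node .nil .nil (.node .nil (.node .nil .nil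
  (.node .nil (.node .nil .nil (.node .nil (.node .nil .nil (.node .nil (.node .nil .nil (.node
  .nil (.leaf 3 1) .nil .nil .nil) .nil .nil) .nil .nil .nil) .nil .nil) .nil .nil .nil) .nil
  .nil) .nil .nil .nil) .nil .nil) .nil .nil .nil) .nil .nil) .nil .nil .nil .nil) .nil .nil)
  .nil (.node .nil (.node (.node .nil .nil (.node (.node .nil .nil (.node .nil (.node .nil .nil
  (.node .nil (.node .nil .nil (.node .nil (.node .nil .nil (.node .nil (.leaf 3 1) .nil .nil
  .nil) .nil .nil) .nil .nil .nil) .nil .nil) .nil .nil .nil) .nil .nil) .nil .nil .nil) .nil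
  .nil) .nil .nil .nil .nil) .nil .nil) .nil .nil .nil .nil) .nil .nil .nil) .nil .nil) .nil
  .nil .nil)

def T2 : Tr :=
  (.node .nil (.node .nil .nil (.node .nil (.node .nil .nil (.node .nil (.node .nil .nil (.node
  .nil (.node (.node .nil .nil (.node (.node .nil .nil (.node .nil (.node .nil .nil (.node .nil
  (.leaf 3 1) .nil .nil .nil) .nil .nil) .nil .nil .nil) .nil .nil) .nil .nil .nil .nil) .nil
  .nil) .nil (.node .nil (.node .nil .nil (.node .nil (.node .nil .nil (.node .nil (.node .nil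
  .nil (.leaf 4 1) .nil .nil) .nil .nil .nil) .nil .nil) .nil .nil .nil) .nil .nil) .nil .nil
  .nil) .nil .nil) .nil .nil .nil) .nil .nil) .nil .nil .nil) .nil .nil) .nil .nil .nil) .nil
  .nil) .nil .nil .nil)

def T3 : Tr :=
  (.node .nil (.node .nil .nil (.node .nil (.node .nil .nil (.node (.node .nil .nil (.node
  (.node .nil (.node .nil .nil (.node .nil (.node .nil .nil (.node .nil (.node .nil .nil (.node
  .nil (.leaf 3 1) .nil .nil .nil) .nil .nil) .nil .nil .nil) .nil .nil) .nil .nil .nil) .nil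
  .nil) .nil .nil .nil) .nil .nil .nil .nil) .nil .nil) (.node .nil .nil (.node .nil (.node
  .nil .nil (.node .nil (.node .nil .nil (.node (.node .nil .nil (.node (.node .nil (.leaf 3 1)
  .nil .nil .nil) .nil .nil .nil .nil) .nil .nil) (.node (.node .nil .nil (.node (.leaf 4 1)
  .nil .nil .nil .nil) .nil .nil) .nil .nil .nil .nil) .nil .nil .nil) .nil .nil) .nil .nil
  .nil) .nil .nil) .nil .nil .nil) .nil .nil) .nil .nil .nil) .nil .nil) .nil .nil .nil) .nil
  .nil) .nil .nil .nil)

def T4 : Tr :=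
  (.node .nil (.node .nil .nil (.node .nil (.node .nil .nil (.node .nil (.node (.node .nil .nil
  (.node (.node .nil .nil (.node .nil (.node .nil .nil (.node .nil (.node .nil .nil (.node .nil
  (.leaf 3 1) .nil .nil .nil) .nil .nil) .nil .nil .nil) .nil .nil) .nil .nil .nil) .nil .nil)
  .nil .nil .nil .nil) .nil .nil) .nil (.node (.node .nil .nil (.node (.node .nil (.node .nil
  .nil (.node .nil (.node .nil .nil (.node .nil (.leaf 3 1) .nil .nil .nil) .nil .nil) .nil
  .nil .nil) .nil .nil) .nil .nil .nil) .nil .nil .nil .nil) .nil .nil) (.node .nil .nil (.node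
  .nil (.node (.node .nil .nil (.node (.node .nil .nil (.node .nil (.leaf 3 1) .nil .nil .nil)
  .nil .nil) .nil .nil .nil .nil) .nil .nil) .nil .nil .nil .nil) .nil .nil .nil) .nil .nil)
  .nil .nil .nil) .nil .nil) .nil .nil .nil) .nil .nil) .nil .nil .nil) .nil .nil) .nil .nil
  .nil)

def T5 : Tr :=
  (.node (.node .nil (.node (.node .nil (.node (.node .nil .nil .nil .nil (.node .nil .nil .nil
  (.node .nil .nil (.node (.node .nil (.node .nil .nil (.node .nil (.node .nil .nil (.node .nil
  (.leaf 1 0) .nil .nil .nil) .nil .nil) .nil .nil .nil) .nil .nil) .nil .nil .nil) .nil .nil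
  .nil .nil) .nil .nil) .nil)) .nil .nil .nil .nil) .nil .nil (.node .nil .nil .nil (.node
  (.node .nil (.node .nil .nil (.node (.node .nil (.node .nil .nil (.node .nil (.node .nil .nil
  (.node .nil (.leaf 2 0) .nil .nil .nil) .nil .nil) .nil .nil .nil) .nil .nil) .nil .nil .nil)
  .nil .nil .nil .nil) .nil .nil) .nil .nil .nil) .nil .nil .nil .nil) .nil)) .nil .nil .nil
  .nil) (.node (.node .nil (.node .nil .nil (.node (.node .nil .nil .nil .nil (.node .nil .nil
  .nil (.node .nil .nil (.node .nil (.node .nil .nil (.node .nil (.node .nil .nil (.node .nil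
  (.leaf 2 0) .nil .nil .nil) .nil .nil) .nil .nil .nil) .nil .nil) .nil .nil .nil) .nil .nil)
  .nil)) (.node .nil .nil (.node (.node .nil .nil .nil .nil (.node .nil .nil .nil (.node .nil
  .nil (.node .nil (.node .nil .nil (.node .nil (.leaf 2 0) .nil .nil .nil) .nil .nil) .nil
  .nil .nil) .nil .nil) .nil)) (.node .nil .nil (.node (.node .nil .nil .nil .nil (.node .nil
  .nil .nil (.node .nil .nil (.node .nil (.leaf 2 0) .nil .nil .nil) .nil .nil) .nil)) (.node
  (.node .nil .nil .nil .nil (.node .nil .nil .nil (.node .nil .nil (.leaf 2 0) .nil .nil)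
  .nil)) .nil (.node (.node .nil .nil .nil .nil (.node .nil .nil .nil (.leaf 3 0) .nil)) .nil
  .nil .nil (.node .nil .nil .nil (.node (.leaf 3 0) .nil .nil .nil .nil) .nil)) .nil .nil)
  .nil .nil (.node .nil .nil .nil (.node (.node .nil (.node .nil .nil (.leaf 2 0) .nil .nil)
  (.node .nil (.leaf 2 0) .nil .nil .nil) .nil .nil) .nil .nil .nil .nil) .nil)) .nil .nil)
  .nil .nil (.node .nil .nil .nil (.node (.node .nil .nil (.node .nil (.node .nil .nil (.node
  .nil (.leaf 2 0) .nil .nil .nil) .nil .nil) .nil .nil .nil) .nil .nil) .nil .nil .nil .nil)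
  .nil)) .nil .nil) .nil .nil (.node .nil .nil .nil (.node (.node .nil .nil (.node .nil (.node
  .nil .nil (.node .nil (.node .nil .nil (.node .nil (.leaf 2 0) .nil .nil .nil) .nil .nil)
  .nil .nil .nil) .nil .nil) .nil .nil .nil) .nil .nil) .nil .nil .nil .nil) .nil)) .nil .nil)
  (.node .nil (.node (.node .nil .nil .nil .nil (.node .nil .nil .nil (.node .nil .nil (.node
  .nil (.node .nil .nil (.node .nil (.node .nil .nil (.node .nil (.leaf 2 0) .nil .nil .nil)
  .nil .nil) .nil .nil .nil) .nil .nil) .nil .nil .nil) .nil .nil) .nil)) .nil .nil .nil .nil)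
  .nil .nil (.node .nil .nil .nil (.node (.node .nil (.node .nil .nil (.node .nil (.node .nil
  .nil (.node .nil (.node .nil .nil (.node .nil (.leaf 2 0) .nil .nil .nil) .nil .nil) .nil
  .nil .nil) .nil .nil) .nil .nil .nil) .nil .nil) .nil .nil .nil) .nil .nil .nil .nil) .nil))
  .nil (.node .nil .nil .nil (.node (.node .nil .nil (.node .nil (.node .nil .nil (.node .nil
  (.node .nil .nil (.node .nil (.node .nil .nil (.node .nil (.leaf 3 0) .nil .nil .nil) .nil
  .nil) .nil .nil .nil) .nil .nil) .nil .nil .nil) .nil .nil) .nil .nil .nil) .nil .nil) .nil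
  .nil .nil .nil) .nil)) (.node (.node .nil .nil .nil .nil (.node .nil .nil .nil (.node (.node
  .nil (.node (.node .nil (.node .nil .nil (.node .nil (.node .nil .nil (.node .nil (.leaf 2 0)
  .nil .nil .nil) .nil .nil) .nil .nil .nil) .nil .nil) .nil .nil .nil) .nil .nil .nil .nil)
  .nil .nil .nil) .nil (.node .nil .nil (.node (.node .nil (.node .nil .nil (.node .nil (.node
  .nil .nil (.node .nil (.leaf 0 0) .nil .nil .nil) .nil .nil) .nil .nil .nil) .nil .nil) .nil
  .nil .nil) .nil .nil .nil .nil) .nil .nil) .nil .nil) .nil)) .nil (.node (.node .nil .nil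
  .nil .nil (.node .nil .nil .nil (.node .nil .nil (.node (.node .nil (.node .nil .nil (.node
  .nil (.node .nil .nil (.node .nil (.leaf 1 0) .nil .nil .nil) .nil .nil) .nil .nil .nil) .nil
  .nil) .nil .nil .nil) .nil .nil .nil .nil) .nil .nil) .nil)) .nil .nil .nil .nil) .nil .nil)
  (.node .nil (.node (.node .nil .nil .nil .nil (.node .nil .nil .nil (.node .nil .nil (.node
  (.node .nil (.node .nil .nil (.node .nil (.node .nil .nil (.node .nil (.leaf 0 0) .nil .nil
  .nil) .nil .nil) .nil .nil .nil) .nil .nil) .nil .nil .nil) .nil .nil .nil .nil) .nil .nil)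
  .nil)) .nil .nil .nil .nil) .nil .nil (.node .nil .nil .nil (.node (.node .nil (.node .nil
  .nil (.node (.node .nil (.node .nil .nil (.node .nil (.node .nil .nil (.node .nil (.leaf 0 0)
  .nil .nil .nil) .nil .nil) .nil .nil .nil) .nil .nil) .nil .nil .nil) .nil .nil .nil .nil)
  .nil .nil) .nil .nil .nil) .nil .nil .nil .nil) .nil)) .nil (.node .nil .nil .nil (.node
  (.node .nil (.node (.node .nil (.node (.node .nil (.node .nil .nil (.node .nil (.node .nil
  .nil (.node .nil (.leaf 1 0) .nil .nil .nil) .nil .nil) .nil .nil .nil) .nil .nil) .nil .nil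
  .nil) .nil .nil .nil .nil) .nil .nil .nil) .nil (.node .nil .nil (.node (.node .nil (.node
  .nil .nil (.node .nil (.node .nil .nil (.node .nil (.leaf 0 0) .nil .nil .nil) .nil .nil)
  .nil .nil .nil) .nil .nil) .nil .nil .nil) .nil .nil .nil .nil) .nil .nil) .nil .nil) (.node
  .nil (.node .nil .nil (.node (.node .nil (.node .nil .nil (.node .nil (.node .nil .nil (.node
  .nil (.leaf 1 0) .nil .nil .nil) .nil .nil) .nil .nil .nil) .nil .nil) .nil .nil .nil) .nil
  .nil .nil .nil) .nil .nil) .nil .nil .nil) .nil (.node .nil .nil .nil (.node (.node .nil .nil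
  .nil .nil (.node .nil .nil .nil (.node .nil .nil (.node .nil (.node .nil .nil (.node .nil
  (.leaf 0 0) .nil .nil .nil) .nil .nil) .nil .nil .nil) .nil .nil) .nil)) .nil .nil .nil .nil)
  .nil)) .nil (.node .nil (.node .nil .nil (.node .nil (.node .nil .nil (.node .nil (.node .nil
  .nil (.node .nil (.node .nil .nil (.node .nil (.leaf 1 0) .nil .nil .nil) .nil .nil) .nil
  .nil .nil) .nil .nil) .nil .nil .nil) .nil .nil) .nil .nil .nil) .nil .nil) .nil .nil .nil)
  .nil .nil) .nil)) .nil (.node .nil .nil .nil (.node (.node .nil .nil (.node (.node .nil .nil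
  (.node .nil (.node .nil .nil (.node .nil (.node .nil .nil (.node .nil (.node .nil .nil (.node
  .nil (.leaf 3 0) .nil .nil .nil) .nil .nil) .nil .nil .nil) .nil .nil) .nil .nil .nil) .nil
  .nil) .nil .nil .nil) .nil .nil) .nil .nil .nil .nil) .nil (.node .nil .nil .nil (.node
  (.node .nil .nil .nil .nil (.node .nil .nil .nil (.node (.node .nil .nil (.node (.node .nil
  (.node .nil .nil (.leaf 2 0) .nil .nil) .nil .nil .nil) .nil .nil .nil .nil) .nil .nil) .nil
  (.node .nil (.node .nil .nil (.node .nil (.node .nil .nil (.leaf 1 0) .nil .nil) .nil .nil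
  .nil) .nil .nil) .nil .nil .nil) .nil .nil) .nil)) .nil (.node .nil (.node (.node .nil .nil
  .nil .nil (.node .nil .nil .nil (.node .nil .nil (.node .nil (.node .nil .nil (.leaf 0 0)
  .nil .nil) .nil .nil .nil) .nil .nil) .nil)) .nil .nil .nil .nil) .nil .nil (.node .nil .nil
  .nil (.node (.node .nil (.node .nil .nil (.node .nil (.node .nil .nil (.leaf 0 0) .nil .nil)
  .nil .nil .nil) .nil .nil) .nil .nil .nil) .nil .nil .nil .nil) .nil)) .nil .nil) .nil)) .nil
  (.node (.node .nil (.node (.node .nil (.node (.node .nil (.node .nil .nil (.node .nil (.node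
  .nil .nil (.node .nil (.leaf 1 0) .nil .nil .nil) .nil .nil) .nil .nil .nil) .nil .nil) .nil
  .nil .nil) .nil .nil .nil .nil) .nil .nil .nil) .nil .nil .nil .nil) (.node (.node .nil
  (.node .nil .nil (.node .nil (.node .nil .nil (.node .nil (.node .nil .nil (.node .nil (.leaf
  2 0) .nil .nil .nil) .nil .nil) .nil .nil .nil) .nil .nil) .nil .nil .nil) .nil .nil) .nil
  .nil .nil) (.node .nil .nil (.node (.node .nil (.node .nil .nil (.node .nil (.node .nil .nil
  (.node .nil (.leaf 1 0) .nil .nil .nil) .nil .nil) .nil .nil .nil) .nil .nil) .nil .nil .nil)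
  .nil .nil .nil .nil) .nil .nil) .nil .nil .nil) .nil .nil) (.node (.node .nil .nil (.node
  (.node .nil .nil (.node .nil (.node .nil .nil (.node .nil (.node .nil .nil (.node .nil (.leaf
  2 0) .nil .nil .nil) .nil .nil) .nil .nil .nil) .nil .nil) .nil .nil .nil) .nil .nil) .nil
  .nil .nil .nil) .nil (.node .nil .nil .nil (.node (.node .nil .nil .nil .nil (.node .nil .nil
  .nil (.node .nil .nil (.node .nil (.node .nil .nil (.leaf 0 0) .nil .nil) .nil .nil .nil)
  .nil .nil) .nil)) .nil .nil .nil .nil) .nil)) .nil (.node (.node .nil .nil (.node (.node .nil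
  (.node .nil .nil (.node .nil (.node .nil .nil (.node .nil (.leaf 2 0) .nil .nil .nil) .nil
  .nil) .nil .nil .nil) .nil .nil) .nil .nil .nil) .nil .nil .nil .nil) .nil .nil) (.node
  (.node .nil .nil (.node (.node .nil .nil (.node .nil (.node .nil .nil (.node .nil (.leaf 2 0)
  .nil .nil .nil) .nil .nil) .nil .nil .nil) .nil .nil) .nil .nil .nil .nil) .nil .nil) .nil
  (.node (.node .nil .nil (.node (.node .nil (.node .nil .nil (.node .nil (.leaf 2 0) .nil .nil
  .nil) .nil .nil) .nil .nil .nil) .nil .nil .nil .nil) .nil .nil) (.node (.node .nil .nil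
  (.node (.node .nil .nil (.node .nil (.leaf 2 0) .nil .nil .nil) .nil .nil) .nil .nil .nil
  .nil) .nil .nil) .nil (.node (.node .nil .nil (.node (.node .nil (.leaf 2 0) .nil .nil .nil)
  .nil .nil .nil .nil) .nil .nil) (.node (.node .nil .nil (.node (.leaf 3 0) .nil .nil .nil
  .nil) .nil .nil) .nil (.node .nil (.node .nil .nil (.leaf 3 0) .nil .nil) .nil .nil .nil)
  .nil .nil) .nil .nil .nil) .nil .nil) .nil .nil .nil) .nil .nil) .nil .nil .nil) .nil .nil)
  .nil .nil (.node .nil .nil .nil (.node (.node .nil .nil .nil .nil (.node .nil .nil .nil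
  (.node (.node .nil (.node .nil .nil (.node .nil (.node .nil .nil (.leaf 0 0) .nil .nil) .nil
  .nil .nil) .nil .nil) .nil .nil .nil) .nil .nil .nil .nil) .nil)) .nil .nil .nil .nil) .nil))
  .nil .nil) .nil)) (.node (.node .nil (.node (.node .nil .nil .nil .nil (.node .nil .nil .nil
  (.node .nil .nil (.node .nil (.node .nil .nil (.node .nil (.node .nil .nil (.node .nil (.node
  .nil .nil (.node .nil (.leaf 1 0) .nil .nil .nil) .nil .nil) .nil .nil .nil) .nil .nil) .nil
  .nil .nil) .nil .nil) .nil .nil .nil) .nil .nil) .nil)) .nil .nil .nil .nil) (.node (.node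
  .nil .nil (.node (.node .nil .nil .nil .nil (.node .nil .nil .nil (.node .nil .nil (.node
  .nil (.node .nil .nil (.node .nil (.node .nil .nil (.node .nil (.leaf 1 0) .nil .nil .nil)
  .nil .nil) .nil .nil .nil) .nil .nil) .nil .nil .nil) .nil .nil) .nil)) (.node .nil .nil
  (.node (.node .nil .nil .nil .nil (.node .nil .nil .nil (.node .nil .nil (.node .nil (.node
  .nil .nil (.node .nil (.leaf 1 0) .nil .nil .nil) .nil .nil) .nil .nil .nil) .nil .nil)
  .nil)) (.node .nil .nil (.node (.node .nil .nil .nil .nil (.node .nil .nil .nil (.node .nil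
  .nil (.node .nil (.leaf 1 0) .nil .nil .nil) .nil .nil) .nil)) (.node (.node .nil .nil .nil
  .nil (.node .nil .nil .nil (.node .nil .nil (.leaf 1 0) .nil .nil) .nil)) .nil (.node (.node
  .nil .nil .nil .nil (.node .nil .nil .nil (.leaf 2 0) .nil)) .nil .nil .nil (.node .nil .nil
  .nil (.node (.leaf 2 0) .nil .nil .nil .nil) .nil)) .nil .nil) .nil .nil (.node .nil .nil
  .nil (.node (.node .nil (.node .nil .nil (.leaf 1 0) .nil .nil) (.node .nil (.leaf 1 0) .nil
  .nil .nil) .nil .nil) .nil .nil .nil .nil) .nil)) .nil .nil) .nil .nil (.node .nil .nil .nil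
  (.node (.node .nil .nil (.node .nil (.node .nil .nil (.node .nil (.leaf 1 0) .nil .nil .nil)
  .nil .nil) .nil .nil .nil) .nil .nil) .nil .nil .nil .nil) .nil)) .nil .nil) .nil .nil (.node
  .nil .nil .nil (.node (.node .nil .nil (.node .nil (.node .nil .nil (.node .nil (.node .nil
  .nil (.node .nil (.leaf 1 0) .nil .nil .nil) .nil .nil) .nil .nil .nil) .nil .nil) .nil .nil
  .nil) .nil .nil) .nil .nil .nil .nil) .nil)) .nil .nil) .nil .nil .nil .nil) .nil (.node .nil
  .nil .nil (.node (.node .nil (.node (.node .nil .nil (.node (.node .nil (.node .nil .nil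
  (.node .nil (.node .nil .nil (.node .nil (.leaf 2 0) .nil .nil .nil) .nil .nil) .nil .nil
  .nil) .nil .nil) .nil .nil .nil) .nil .nil .nil .nil) .nil .nil) .nil (.node .nil (.node .nil
  .nil (.node .nil (.node .nil .nil (.node .nil (.node .nil .nil (.node .nil (.leaf 2 0) .nil
  .nil .nil) .nil .nil) .nil .nil .nil) .nil .nil) .nil .nil .nil) .nil .nil) .nil .nil .nil)
  .nil .nil) .nil .nil (.node .nil .nil .nil (.node (.node .nil .nil .nil .nil (.node .nil .nil
  .nil (.node (.node .nil (.node .nil .nil (.node .nil (.leaf 2 0) .nil .nil .nil) .nil .nil)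
  .nil .nil .nil) .nil .nil .nil .nil) .nil)) .nil .nil .nil .nil) .nil)) .nil (.node (.node
  .nil .nil (.node (.node .nil .nil (.node .nil (.node .nil .nil (.node .nil (.node .nil .nil
  (.node .nil (.leaf 1 0) .nil .nil .nil) .nil .nil) .nil .nil .nil) .nil .nil) .nil .nil .nil)
  .nil .nil) .nil .nil .nil .nil) .nil .nil) .nil (.node (.node .nil .nil (.node (.node .nil
  (.node .nil .nil (.node .nil (.node .nil .nil (.node .nil (.leaf 0 0) .nil .nil .nil) .nil
  .nil) .nil .nil .nil) .nil .nil) .nil .nil .nil) .nil .nil .nil .nil) .nil .nil) .nil .nil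
  .nil .nil) .nil .nil) .nil .nil) .nil)) .nil (.node (.node .nil .nil (.node (.node .nil
  (.node .nil .nil (.node (.node .nil .nil .nil .nil (.node .nil .nil .nil (.node .nil .nil
  (.node .nil (.node .nil .nil (.node .nil (.leaf 1 0) .nil .nil .nil) .nil .nil) .nil .nil
  .nil) .nil .nil) .nil)) (.node .nil .nil (.node (.node .nil .nil .nil .nil (.node .nil .nil
  .nil (.node .nil .nil (.node .nil (.leaf 1 0) .nil .nil .nil) .nil .nil) .nil)) (.node (.node
  .nil .nil .nil .nil (.node .nil .nil .nil (.node .nil .nil (.leaf 1 0) .nil .nil) .nil)) .nil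
  (.node (.node .nil .nil .nil .nil (.node .nil .nil .nil (.leaf 2 0) .nil)) .nil .nil .nil
  (.node .nil .nil .nil (.node (.leaf 2 0) .nil .nil .nil .nil) .nil)) .nil .nil) .nil .nil
  (.node .nil .nil .nil (.node (.node .nil (.node .nil .nil (.leaf 1 0) .nil .nil) (.node .nil
  (.leaf 1 0) .nil .nil .nil) .nil .nil) .nil .nil .nil .nil) .nil)) .nil .nil) .nil .nil
  (.node .nil .nil .nil (.node (.node .nil .nil (.node .nil (.node .nil .nil (.node .nil (.leaf
  1 0) .nil .nil .nil) .nil .nil) .nil .nil .nil) .nil .nil) .nil .nil .nil .nil) .nil)) .nil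
  .nil) (.node .nil (.node (.node .nil .nil .nil .nil (.node .nil .nil .nil (.node .nil .nil
  (.node .nil (.node .nil .nil (.node .nil (.leaf 1 0) .nil .nil .nil) .nil .nil) .nil .nil
  .nil) .nil .nil) .nil)) .nil .nil .nil .nil) .nil .nil (.node .nil .nil .nil (.node (.node
  .nil (.node .nil .nil (.node .nil (.node .nil .nil (.node .nil (.leaf 1 0) .nil .nil .nil)
  .nil .nil) .nil .nil .nil) .nil .nil) .nil .nil .nil) .nil .nil .nil .nil) .nil)) .nil (.node
  .nil .nil .nil (.node (.node .nil .nil (.node .nil (.node .nil .nil (.node .nil (.node .nil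
  .nil (.node .nil (.leaf 2 0) .nil .nil .nil) .nil .nil) .nil .nil .nil) .nil .nil) .nil .nil
  .nil) .nil .nil) .nil .nil .nil .nil) .nil)) .nil .nil .nil (.node .nil .nil .nil (.node .nil
  .nil (.node .nil (.node .nil .nil (.node .nil (.node .nil .nil (.node .nil (.node .nil .nil
  (.node .nil (.leaf 0 0) .nil .nil .nil) .nil .nil) .nil .nil .nil) .nil .nil) .nil .nil .nil)
  .nil .nil) .nil .nil .nil) .nil .nil) .nil)) .nil (.node .nil .nil .nil (.node (.node .nil
  .nil (.node (.node .nil .nil (.node .nil (.node .nil .nil (.node .nil (.node .nil .nil (.node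
  .nil (.leaf 2 0) .nil .nil .nil) .nil .nil) .nil .nil .nil) .nil .nil) .nil .nil .nil) .nil
  .nil) .nil .nil .nil .nil) .nil .nil) .nil (.node (.node .nil .nil (.node (.node .nil (.node
  .nil .nil (.node .nil (.node .nil .nil (.node .nil (.leaf 1 0) .nil .nil .nil) .nil .nil)
  .nil .nil .nil) .nil .nil) .nil .nil .nil) .nil .nil .nil .nil) .nil .nil) (.node (.node .nil
  .nil (.node (.node .nil .nil (.node .nil (.node .nil .nil (.node .nil (.leaf 1 0) .nil .nil
  .nil) .nil .nil) .nil .nil .nil) .nil .nil) .nil .nil .nil .nil) .nil .nil) .nil (.node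
  (.node .nil .nil (.node (.node .nil (.node .nil .nil (.node .nil (.leaf 1 0) .nil .nil .nil)
  .nil .nil) .nil .nil .nil) .nil .nil .nil .nil) .nil .nil) (.node (.node .nil .nil (.node
  (.node .nil .nil (.node .nil (.leaf 1 0) .nil .nil .nil) .nil .nil) .nil .nil .nil .nil) .nil
  .nil) .nil (.node (.node .nil .nil (.node (.node .nil (.leaf 1 0) .nil .nil .nil) .nil .nil
  .nil .nil) .nil .nil) (.node (.node .nil .nil (.node (.leaf 2 0) .nil .nil .nil .nil) .nil
  .nil) .nil (.node .nil (.node .nil .nil (.leaf 2 0) .nil .nil) .nil .nil .nil) .nil .nil)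
  .nil .nil .nil) .nil .nil) .nil .nil .nil) .nil .nil) .nil .nil .nil) .nil .nil) .nil))
  (.node (.node .nil (.node (.node .nil .nil .nil .nil (.node .nil .nil .nil (.node (.node .nil
  .nil .nil .nil (.node .nil .nil .nil (.node (.node .nil .nil .nil .nil (.node .nil .nil .nil
  (.leaf 2 0) .nil)) .nil .nil .nil .nil) .nil)) .nil (.node .nil (.node .nil .nil (.node .nil
  (.node .nil .nil (.node .nil (.leaf 1 0) .nil .nil .nil) .nil .nil) .nil .nil .nil) .nil
  .nil) .nil .nil .nil) .nil .nil) .nil)) .nil .nil .nil .nil) (.node (.node .nil .nil (.node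
  (.node .nil .nil .nil .nil (.node .nil .nil .nil (.node .nil .nil (.node .nil (.node .nil
  .nil (.node .nil (.leaf 1 0) .nil .nil .nil) .nil .nil) .nil .nil .nil) .nil .nil) .nil))
  (.node .nil .nil (.node (.node .nil .nil .nil .nil (.node .nil .nil .nil (.node .nil .nil
  (.node .nil (.leaf 1 0) .nil .nil .nil) .nil .nil) .nil)) (.node (.node .nil .nil .nil .nil
  (.node .nil .nil .nil (.node .nil .nil (.leaf 1 0) .nil .nil) .nil)) .nil (.node (.node .nil
  .nil .nil .nil (.node .nil .nil .nil (.leaf 2 0) .nil)) .nil .nil .nil (.node .nil .nil .nil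
  (.node (.leaf 2 0) .nil .nil .nil .nil) .nil)) .nil .nil) .nil .nil (.node .nil .nil .nil
  (.node (.node .nil (.node .nil .nil (.leaf 1 0) .nil .nil) (.node .nil (.leaf 1 0) .nil .nil
  .nil) .nil .nil) .nil .nil .nil .nil) .nil)) .nil .nil) .nil .nil (.node .nil .nil .nil
  (.node (.node .nil .nil (.node .nil (.node .nil .nil (.node .nil (.leaf 1 0) .nil .nil .nil)
  .nil .nil) .nil .nil .nil) .nil .nil) .nil .nil .nil .nil) .nil)) .nil .nil) .nil .nil .nil
  .nil) .nil (.node .nil .nil .nil (.node (.node .nil (.node (.node .nil .nil .nil .nil (.node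
  .nil .nil .nil (.node (.node .nil .nil .nil .nil (.node .nil .nil .nil (.leaf 2 0) .nil))
  .nil .nil .nil .nil) .nil)) .nil (.node .nil (.node .nil .nil (.node .nil (.node .nil .nil
  (.node .nil (.leaf 2 0) .nil .nil .nil) .nil .nil) .nil .nil .nil) .nil .nil) .nil .nil .nil)
  .nil .nil) .nil .nil (.node .nil .nil .nil (.node (.node .nil (.node (.node .nil .nil .nil
  .nil (.node .nil .nil .nil (.leaf 2 0) .nil)) .nil .nil .nil .nil) .nil .nil (.node .nil .nil
  .nil (.node (.node .nil (.leaf 2 0) .nil .nil .nil) .nil .nil .nil .nil) .nil)) .nil .nil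
  .nil .nil) .nil)) .nil (.node (.node .nil .nil (.node (.node .nil .nil (.node .nil (.node
  .nil .nil (.node .nil (.leaf 1 0) .nil .nil .nil) .nil .nil) .nil .nil .nil) .nil .nil) .nil
  .nil .nil .nil) .nil .nil) .nil .nil .nil .nil) .nil .nil) .nil)) .nil (.node (.node .nil
  .nil (.node (.node .nil (.node .nil .nil (.node (.node .nil .nil .nil .nil (.node .nil .nil
  .nil (.node .nil .nil (.node .nil (.leaf 1 0) .nil .nil .nil) .nil .nil) .nil)) (.node (.node
  .nil .nil .nil .nil (.node .nil .nil .nil (.node .nil .nil (.leaf 1 0) .nil .nil) .nil)) .nil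
  (.node (.node .nil .nil .nil .nil (.node .nil .nil .nil (.leaf 2 0) .nil)) .nil .nil .nil
  (.node .nil .nil .nil (.node (.leaf 2 0) .nil .nil .nil .nil) .nil)) .nil .nil) .nil .nil
  (.node .nil .nil .nil (.node (.node .nil (.node .nil .nil (.leaf 1 0) .nil .nil) (.node .nil
  (.leaf 1 0) .nil .nil .nil) .nil .nil) .nil .nil .nil .nil) .nil)) .nil .nil) (.node .nil
  (.node (.node .nil .nil .nil .nil (.node .nil .nil .nil (.node .nil .nil (.node .nil (.leaf 1
  0) .nil .nil .nil) .nil .nil) .nil)) .nil .nil .nil .nil) .nil .nil (.node .nil .nil .nil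
  (.node (.node .nil (.node .nil .nil (.node .nil (.leaf 1 0) .nil .nil .nil) .nil .nil) .nil
  .nil .nil) .nil .nil .nil .nil) .nil)) .nil (.node .nil .nil .nil (.node (.node .nil .nil
  (.node .nil (.node .nil .nil (.node .nil (.leaf 2 0) .nil .nil .nil) .nil .nil) .nil .nil
  .nil) .nil .nil) .nil .nil .nil .nil) .nil)) .nil .nil .nil (.node .nil .nil .nil (.node .nil
  .nil (.node .nil (.node .nil .nil (.node .nil (.node .nil .nil (.node .nil (.leaf 0 0) .nil
  .nil .nil) .nil .nil) .nil .nil .nil) .nil .nil) .nil .nil .nil) .nil .nil) .nil)) .nil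
  (.node .nil .nil .nil (.node (.node .nil .nil (.node (.node .nil .nil (.node .nil (.node .nil
  .nil (.node .nil (.leaf 2 0) .nil .nil .nil) .nil .nil) .nil .nil .nil) .nil .nil) .nil .nil
  .nil .nil) .nil .nil) .nil (.node (.node .nil .nil (.node (.node .nil (.node .nil .nil (.node
  .nil (.leaf 1 0) .nil .nil .nil) .nil .nil) .nil .nil .nil) .nil .nil .nil .nil) .nil .nil)
  (.node (.node .nil .nil (.node (.node .nil .nil (.node .nil (.leaf 1 0) .nil .nil .nil) .nil
  .nil) .nil .nil .nil .nil) .nil .nil) .nil (.node (.node .nil .nil (.node (.node .nil (.leaf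
  1 0) .nil .nil .nil) .nil .nil .nil .nil) .nil .nil) (.node (.node .nil .nil (.node (.leaf 2
  0) .nil .nil .nil .nil) .nil .nil) .nil (.node .nil (.node .nil .nil (.leaf 2 0) .nil .nil)
  .nil .nil .nil) .nil .nil) .nil .nil .nil) .nil .nil) .nil .nil .nil) .nil .nil) .nil))
  (.node (.node .nil (.node (.node .nil (.node (.node .nil .nil (.node .nil .nil .nil .nil
  (.node .nil .nil .nil (.node (.leaf 1 0) .nil .nil .nil .nil) .nil)) .nil (.node .nil .nil
  .nil (.node .nil .nil (.node (.leaf 1 0) .nil .nil .nil .nil) .nil .nil) .nil)) .nil .nil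
  .nil .nil) .nil .nil (.node .nil .nil .nil (.node (.node .nil (.node .nil .nil (.node (.leaf
  2 0) .nil .nil .nil .nil) .nil .nil) .nil .nil .nil) .nil (.node .nil (.node .nil .nil (.node
  .nil (.leaf 1 0) .nil .nil .nil) .nil .nil) .nil .nil .nil) .nil .nil) .nil)) .nil .nil .nil
  .nil) (.node (.node .nil (.node (.node .nil (.node (.node .nil .nil .nil .nil (.node .nil
  .nil .nil (.leaf 2 0) .nil)) .nil .nil .nil .nil) .nil .nil (.node .nil .nil .nil (.node
  (.node .nil (.leaf 2 0) .nil .nil .nil) .nil .nil .nil .nil) .nil)) .nil .nil .nil .nil)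
  (.node (.node .nil .nil .nil .nil (.node .nil .nil .nil (.node .nil .nil (.node .nil (.leaf 1
  0) .nil .nil .nil) .nil .nil) .nil)) (.node (.node .nil .nil .nil .nil (.node .nil .nil .nil
  (.node .nil .nil (.leaf 2 0) .nil .nil) .nil)) .nil (.node (.node .nil .nil .nil .nil (.node
  .nil .nil .nil (.leaf 2 0) .nil)) .nil .nil .nil (.node .nil .nil .nil (.node (.leaf 2 0)
  .nil .nil .nil .nil) .nil)) .nil .nil) (.node .nil (.node (.node .nil .nil .nil .nil (.node
  .nil .nil .nil (.leaf 1 0) .nil)) .nil .nil .nil .nil) .nil .nil (.node .nil .nil .nil (.node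
  (.node .nil (.leaf 0 0) .nil .nil .nil) .nil .nil .nil .nil) .nil)) .nil (.node .nil .nil
  .nil (.node (.node .nil (.node .nil .nil (.leaf 2 0) .nil .nil) (.node .nil (.leaf 1 0) .nil
  .nil .nil) .nil .nil) .nil .nil .nil .nil) .nil)) .nil .nil) (.node (.node .nil .nil .nil
  .nil (.node .nil .nil .nil (.node (.node .nil (.node (.leaf 2 0) .nil .nil .nil .nil) .nil
  .nil .nil) .nil (.node (.node .nil .nil (.leaf 1 0) .nil .nil) .nil (.node (.leaf 0 0) .nil
  .nil .nil .nil) .nil .nil) .nil .nil) .nil)) .nil (.node (.node .nil .nil (.node .nil .nil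
  .nil .nil (.node .nil .nil .nil (.node (.leaf 1 0) .nil .nil .nil .nil) .nil)) .nil (.node
  .nil .nil .nil (.node .nil .nil (.node (.leaf 1 0) .nil .nil .nil .nil) .nil .nil) .nil))
  .nil .nil .nil .nil) .nil .nil) (.node .nil (.node (.node .nil .nil .nil .nil (.node .nil
  .nil .nil (.node .nil .nil (.node (.leaf 0 0) .nil .nil .nil .nil) .nil .nil) .nil)) .nil
  .nil .nil .nil) .nil .nil (.node .nil .nil .nil (.node (.node .nil (.node .nil .nil (.node
  (.leaf 0 0) .nil .nil .nil .nil) .nil .nil) .nil .nil .nil) .nil .nil .nil .nil) .nil)) .nil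
  (.node .nil .nil .nil (.node (.node .nil (.node (.node .nil (.node (.leaf 1 0) .nil .nil .nil
  .nil) .nil .nil .nil) .nil (.node (.node .nil .nil (.leaf 1 0) .nil .nil) .nil (.node (.leaf
  0 0) .nil .nil .nil .nil) .nil .nil) .nil .nil) (.node .nil (.node .nil .nil (.node (.leaf 1
  0) .nil .nil .nil .nil) .nil .nil) .nil .nil .nil) .nil .nil) .nil .nil .nil .nil) .nil))
  .nil (.node .nil .nil .nil (.node (.node .nil (.node .nil .nil (.node .nil (.node .nil .nil
  (.node .nil (.leaf 2 0) .nil .nil .nil) .nil .nil) .nil .nil .nil) .nil .nil) .nil .nil .nil)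
  .nil (.node (.node .nil .nil (.node (.node .nil .nil (.node .nil (.leaf 1 0) .nil .nil .nil)
  .nil .nil) .nil .nil .nil .nil) .nil .nil) .nil .nil .nil .nil) .nil .nil) .nil)) .nil (.node
  (.node .nil .nil (.node (.node .nil (.node (.node .nil .nil .nil .nil (.node .nil .nil .nil
  (.node .nil .nil (.leaf 1 0) .nil .nil) .nil)) .nil (.node (.node .nil .nil .nil .nil (.node
  .nil .nil .nil (.leaf 2 0) .nil)) .nil .nil .nil (.node .nil .nil .nil (.node (.leaf 2 0)
  .nil .nil .nil .nil) .nil)) .nil .nil) (.node .nil (.node (.node .nil .nil .nil .nil (.node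
  .nil .nil .nil (.leaf 2 0) .nil)) .nil .nil .nil .nil) .nil .nil (.node .nil .nil .nil (.node
  (.node .nil (.leaf 1 0) .nil .nil .nil) .nil .nil .nil .nil) .nil)) .nil (.node .nil .nil
  .nil (.node (.node .nil (.node .nil .nil (.leaf 2 0) .nil .nil) (.node .nil (.leaf 2 0) .nil
  .nil .nil) .nil .nil) .nil .nil .nil .nil) .nil)) .nil .nil .nil (.node .nil .nil .nil (.node
  .nil .nil (.node .nil (.node .nil .nil (.node .nil (.leaf 0 0) .nil .nil .nil) .nil .nil)
  .nil .nil .nil) .nil .nil) .nil)) .nil (.node .nil .nil .nil (.node (.node .nil .nil (.node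
  (.node .nil .nil (.node .nil (.leaf 2 0) .nil .nil .nil) .nil .nil) .nil .nil .nil .nil) .nil
  .nil) .nil (.node (.node .nil .nil (.node (.node .nil (.leaf 1 0) .nil .nil .nil) .nil .nil
  .nil .nil) .nil .nil) (.node (.node .nil .nil (.node (.leaf 2 0) .nil .nil .nil .nil) .nil
  .nil) .nil (.node .nil (.node .nil .nil (.leaf 2 0) .nil .nil) .nil .nil .nil) .nil .nil)
  .nil .nil .nil) .nil .nil) .nil)) (.node (.node .nil (.node (.node .nil .nil .nil .nil (.node
  .nil .nil .nil (.node .nil .nil (.node .nil (.leaf 1 0) .nil .nil .nil) .nil .nil) .nil))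
  .nil .nil .nil .nil) (.node (.node .nil .nil (.node (.node .nil .nil .nil .nil (.node .nil
  .nil .nil (.leaf 2 0) .nil)) .nil .nil .nil (.node .nil .nil .nil (.node (.leaf 2 0) .nil
  .nil .nil .nil) .nil)) .nil .nil) .nil .nil .nil .nil) .nil (.node .nil .nil .nil (.node
  (.node .nil (.node .nil .nil (.node .nil (.leaf 2 0) .nil .nil .nil) .nil .nil) .nil .nil
  .nil) .nil (.node (.node .nil .nil (.node (.leaf 2 0) .nil .nil .nil .nil) .nil .nil) .nil
  .nil .nil .nil) .nil .nil) .nil)) .nil (.node (.node .nil .nil (.node (.node .nil .nil .nil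
  .nil (.node .nil .nil .nil (.node (.leaf 3 0) .nil .nil .nil .nil) .nil)) .nil .nil .nil
  (.node .nil .nil .nil (.node .nil .nil (.node .nil (.leaf 0 0) .nil .nil .nil) .nil .nil)
  .nil)) .nil (.node .nil .nil .nil (.node (.node .nil .nil (.node (.leaf 3 0) .nil .nil .nil
  .nil) .nil .nil) .nil (.node .nil (.node .nil .nil (.leaf 2 0) .nil .nil) .nil .nil .nil)
  .nil .nil) .nil)) (.node (.node .nil (.node (.node .nil .nil .nil .nil (.node .nil .nil .nil
  (.leaf 2 0) .nil)) .nil .nil .nil .nil) .nil .nil (.node .nil .nil .nil (.node (.node .nil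
  (.leaf 2 0) .nil .nil .nil) .nil .nil .nil .nil) .nil)) .nil (.node (.node .nil .nil (.node
  .nil .nil .nil .nil (.node .nil .nil .nil (.leaf 1 0) .nil)) .nil (.node .nil .nil .nil
  (.node .nil .nil (.leaf 2 0) .nil .nil) .nil)) .nil .nil .nil (.node .nil .nil .nil (.node
  (.node .nil .nil (.leaf 2 0) .nil .nil) .nil (.node (.leaf 1 0) .nil .nil .nil .nil) .nil
  .nil) .nil)) .nil .nil) .nil .nil (.node .nil .nil .nil (.node (.node .nil (.node (.node .nil
  (.leaf 1 0) .nil .nil .nil) .nil .nil .nil .nil) (.node .nil (.node .nil .nil (.leaf 2 0)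
  .nil .nil) .nil .nil .nil) .nil .nil) .nil (.node (.node .nil .nil (.node .nil (.leaf 0 0)
  .nil .nil .nil) .nil .nil) .nil .nil .nil .nil) .nil .nil) .nil)) .nil .nil) .nil .nil (.node
  .nil .nil .nil (.node (.node .nil (.node (.node .nil (.node .nil .nil (.node .nil (.leaf 1 0)
  .nil .nil .nil) .nil .nil) .nil .nil .nil) .nil (.node (.node .nil .nil (.node (.leaf 2 0)
  .nil .nil .nil .nil) .nil .nil) .nil .nil .nil .nil) .nil .nil) (.node (.node .nil .nil
  (.node (.node .nil (.leaf 1 0) .nil .nil .nil) .nil .nil .nil .nil) .nil .nil) (.node (.node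
  .nil .nil (.node (.leaf 2 0) .nil .nil .nil .nil) .nil .nil) .nil (.node .nil (.node .nil
  .nil (.leaf 2 0) .nil .nil) .nil .nil .nil) .nil .nil) .nil .nil .nil) .nil .nil) .nil (.node
  (.node .nil .nil (.node .nil (.node .nil .nil (.node .nil (.leaf 0 0) .nil .nil .nil) .nil
  .nil) .nil .nil .nil) .nil .nil) .nil .nil .nil .nil) .nil .nil) .nil)) .nil .nil) .nil .nil
  (.node .nil .nil .nil (.node (.node .nil (.node (.node .nil (.node .nil .nil (.node .nil
  (.node .nil .nil (.node .nil (.leaf 1 0) .nil .nil .nil) .nil .nil) .nil .nil .nil) .nil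
  .nil) .nil .nil .nil) .nil (.node (.node .nil .nil (.node (.node .nil .nil (.node .nil (.leaf
  1 0) .nil .nil .nil) .nil .nil) .nil .nil .nil .nil) .nil .nil) .nil .nil .nil .nil) .nil
  .nil) (.node (.node .nil .nil (.node (.node .nil (.node .nil .nil (.node .nil (.leaf 1 0)
  .nil .nil .nil) .nil .nil) .nil .nil .nil) .nil .nil .nil .nil) .nil .nil) (.node (.node .nil
  .nil (.node (.node .nil .nil (.node .nil (.leaf 1 0) .nil .nil .nil) .nil .nil) .nil .nil
  .nil .nil) .nil .nil) .nil (.node (.node .nil .nil (.node (.node .nil (.leaf 1 0) .nil .nil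
  .nil) .nil .nil .nil .nil) .nil .nil) (.node (.node .nil .nil (.node (.leaf 2 0) .nil .nil
  .nil .nil) .nil .nil) .nil (.node .nil (.node .nil .nil (.leaf 2 0) .nil .nil) .nil .nil
  .nil) .nil .nil) .nil .nil .nil) .nil .nil) .nil .nil .nil) .nil (.node .nil .nil .nil (.node
  (.node .nil .nil .nil .nil (.node .nil .nil .nil (.node .nil .nil (.node (.leaf 0 0) .nil
  .nil .nil .nil) .nil .nil) .nil)) .nil .nil .nil .nil) .nil)) .nil (.node (.node .nil .nil
  (.node .nil (.node .nil .nil (.node .nil (.node .nil .nil (.node .nil (.leaf 0 0) .nil .nil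
  .nil) .nil .nil) .nil .nil .nil) .nil .nil) .nil .nil .nil) .nil .nil) .nil .nil .nil .nil)
  .nil .nil) .nil)) .nil .nil) .nil .nil (.node .nil .nil .nil (.node (.node .nil (.node (.node
  .nil (.node .nil .nil (.node .nil (.node .nil .nil (.node .nil (.node .nil .nil (.node .nil
  (.leaf 1 0) .nil .nil .nil) .nil .nil) .nil .nil .nil) .nil .nil) .nil .nil .nil) .nil .nil)
  .nil .nil .nil) .nil (.node (.node .nil .nil (.node (.node .nil .nil (.node .nil (.node .nil
  .nil (.node .nil (.leaf 1 0) .nil .nil .nil) .nil .nil) .nil .nil .nil) .nil .nil) .nil .nil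
  .nil .nil) .nil .nil) .nil .nil .nil .nil) .nil .nil) (.node (.node .nil .nil (.node (.node
  .nil (.node .nil .nil (.node .nil (.node .nil .nil (.node .nil (.leaf 1 0) .nil .nil .nil)
  .nil .nil) .nil .nil .nil) .nil .nil) .nil .nil .nil) .nil .nil .nil .nil) .nil .nil) (.node
  (.node .nil .nil (.node (.node .nil .nil (.node .nil (.node .nil .nil (.node .nil (.leaf 1 0)
  .nil .nil .nil) .nil .nil) .nil .nil .nil) .nil .nil) .nil .nil .nil .nil) .nil .nil) .nil
  (.node (.node .nil .nil (.node (.node .nil (.node .nil .nil (.node .nil (.leaf 1 0) .nil .nil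
  .nil) .nil .nil) .nil .nil .nil) .nil .nil .nil .nil) .nil .nil) (.node (.node .nil .nil
  (.node (.node .nil .nil (.node .nil (.leaf 1 0) .nil .nil .nil) .nil .nil) .nil .nil .nil
  .nil) .nil .nil) .nil (.node (.node .nil .nil (.node (.node .nil (.leaf 1 0) .nil .nil .nil)
  .nil .nil .nil .nil) .nil .nil) (.node (.node .nil .nil (.node (.leaf 2 0) .nil .nil .nil
  .nil) .nil .nil) .nil (.node .nil (.node .nil .nil (.leaf 2 0) .nil .nil) .nil .nil .nil)
  .nil .nil) .nil .nil .nil) .nil .nil) .nil .nil .nil) .nil .nil) .nil .nil .nil) .nil .nil)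
  .nil (.node (.node .nil .nil (.node .nil (.node .nil .nil (.node .nil (.node .nil .nil (.node
  .nil (.node .nil .nil (.node .nil (.leaf 0 0) .nil .nil .nil) .nil .nil) .nil .nil .nil) .nil
  .nil) .nil .nil .nil) .nil .nil) .nil .nil .nil) .nil .nil) .nil .nil .nil .nil) .nil .nil)
  .nil)) .nil .nil) (.node (.node .nil .nil (.node .nil (.node (.node .nil .nil .nil .nil
  (.node .nil .nil .nil (.node .nil .nil (.node (.node .nil (.node .nil .nil (.node .nil (.node
  .nil .nil (.node .nil (.leaf 1 0) .nil .nil .nil) .nil .nil) .nil .nil .nil) .nil .nil) .nil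
  .nil .nil) .nil .nil .nil .nil) .nil .nil) .nil)) .nil .nil .nil .nil) .nil .nil (.node .nil
  .nil .nil (.node (.node .nil (.node .nil .nil (.node (.node .nil (.node .nil .nil (.node .nil
  (.node .nil .nil (.node .nil (.leaf 1 0) .nil .nil .nil) .nil .nil) .nil .nil .nil) .nil
  .nil) .nil .nil .nil) .nil .nil .nil .nil) .nil .nil) .nil .nil .nil) .nil .nil .nil .nil)
  .nil)) .nil (.node .nil .nil .nil (.node .nil .nil (.node .nil (.node .nil .nil (.node .nil
  (.node .nil .nil (.node .nil (.node .nil .nil (.node .nil (.node .nil .nil (.node .nil (.leaf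
  2 0) .nil .nil .nil) .nil .nil) .nil .nil .nil) .nil .nil) .nil .nil .nil) .nil .nil) .nil
  .nil .nil) .nil .nil) .nil .nil .nil) .nil .nil) .nil)) (.node (.node .nil .nil (.node (.node
  .nil .nil .nil .nil (.node .nil .nil .nil (.node (.node .nil .nil .nil .nil (.node .nil .nil
  .nil (.node (.node .nil .nil .nil .nil (.node .nil .nil .nil (.node (.leaf 2 0) .nil .nil
  .nil .nil) .nil)) .nil .nil .nil .nil) .nil)) .nil .nil .nil .nil) .nil)) .nil .nil .nil
  .nil) .nil (.node .nil .nil .nil (.node (.node .nil .nil (.node (.node .nil .nil (.node .nil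
  (.node .nil .nil (.node .nil (.node .nil .nil (.node .nil (.leaf 2 0) .nil .nil .nil) .nil
  .nil) .nil .nil .nil) .nil .nil) .nil .nil .nil) .nil .nil) .nil .nil .nil .nil) .nil (.node
  .nil .nil .nil (.node (.node .nil .nil .nil .nil (.node .nil .nil .nil (.node .nil .nil
  (.node .nil (.node .nil .nil (.leaf 1 0) .nil .nil) .nil .nil .nil) .nil .nil) .nil)) .nil
  .nil .nil .nil) .nil)) .nil (.node (.node .nil .nil (.node (.node .nil (.node .nil .nil
  (.node .nil (.node .nil .nil (.node .nil (.leaf 2 0) .nil .nil .nil) .nil .nil) .nil .nil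
  .nil) .nil .nil) .nil .nil .nil) .nil .nil .nil .nil) .nil .nil) (.node (.node .nil .nil
  (.node (.node .nil .nil (.node .nil (.node .nil .nil (.node .nil (.leaf 1 0) .nil .nil .nil)
  .nil .nil) .nil .nil .nil) .nil .nil) .nil .nil .nil .nil) .nil .nil) .nil (.node (.node .nil
  .nil (.node (.node .nil (.node .nil .nil (.node .nil (.leaf 1 0) .nil .nil .nil) .nil .nil)
  .nil .nil .nil) .nil .nil .nil .nil) .nil .nil) (.node (.node .nil .nil (.node (.node .nil
  .nil (.node .nil (.leaf 1 0) .nil .nil .nil) .nil .nil) .nil .nil .nil .nil) .nil .nil) .nil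
  (.node (.node .nil .nil (.node (.node .nil (.leaf 1 0) .nil .nil .nil) .nil .nil .nil .nil)
  .nil .nil) (.node (.node .nil .nil (.node (.leaf 2 0) .nil .nil .nil .nil) .nil .nil) .nil
  (.node .nil (.node .nil .nil (.leaf 2 0) .nil .nil) .nil .nil .nil) .nil .nil) .nil .nil
  .nil) .nil .nil) .nil .nil .nil) .nil .nil) .nil .nil .nil) .nil .nil) .nil)) .nil (.node
  (.node .nil .nil .nil .nil (.node .nil .nil .nil (.node .nil .nil (.node .nil (.node .nil
  .nil (.node .nil (.node .nil .nil (.node .nil (.node .nil .nil (.node .nil (.leaf 2 0) .nil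
  .nil .nil) .nil .nil) .nil .nil .nil) .nil .nil) .nil .nil .nil) .nil .nil) .nil .nil .nil)
  .nil .nil) .nil)) (.node (.node .nil .nil .nil .nil (.node .nil .nil .nil (.node (.node .nil
  .nil .nil .nil (.node .nil .nil .nil (.node (.node .nil .nil .nil .nil (.node .nil .nil .nil
  (.node .nil .nil (.leaf 1 0) .nil .nil) .nil)) .nil (.node .nil .nil .nil .nil (.node .nil
  .nil .nil (.node (.leaf 0 0) .nil .nil .nil .nil) .nil)) .nil .nil) .nil)) .nil (.node .nil
  .nil .nil .nil (.node .nil .nil .nil (.node (.node .nil .nil .nil .nil (.node .nil .nil .nil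
  (.node (.leaf 0 0) .nil .nil .nil .nil) .nil)) .nil .nil .nil .nil) .nil)) .nil .nil) .nil))
  .nil (.node (.node .nil .nil .nil .nil (.node .nil .nil .nil (.node .nil .nil (.node .nil
  (.node .nil .nil (.node .nil (.node .nil .nil (.node .nil (.leaf 2 0) .nil .nil .nil) .nil
  .nil) .nil .nil .nil) .nil .nil) .nil .nil .nil) .nil .nil) .nil)) (.node .nil .nil (.node
  (.node .nil .nil .nil .nil (.node .nil .nil .nil (.node .nil .nil (.node .nil (.node .nil
  .nil (.node .nil (.leaf 2 0) .nil .nil .nil) .nil .nil) .nil .nil .nil) .nil .nil) .nil))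
  (.node .nil .nil (.node (.node .nil .nil .nil .nil (.node .nil .nil .nil (.node .nil .nil
  (.node .nil (.leaf 2 0) .nil .nil .nil) .nil .nil) .nil)) (.node (.node .nil .nil .nil .nil
  (.node .nil .nil .nil (.node .nil .nil (.leaf 2 0) .nil .nil) .nil)) .nil (.node (.node .nil
  .nil .nil .nil (.node .nil .nil .nil (.leaf 3 0) .nil)) .nil .nil .nil (.node .nil .nil .nil
  (.node (.leaf 3 0) .nil .nil .nil .nil) .nil)) .nil .nil) .nil .nil (.node .nil .nil .nil
  (.node (.node .nil (.node .nil .nil (.leaf 2 0) .nil .nil) (.node .nil (.leaf 2 0) .nil .nil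
  .nil) .nil .nil) .nil .nil .nil .nil) .nil)) .nil .nil) .nil .nil (.node .nil .nil .nil
  (.node (.node .nil .nil (.node .nil (.node .nil .nil (.node .nil (.leaf 2 0) .nil .nil .nil)
  .nil .nil) .nil .nil .nil) .nil .nil) .nil .nil .nil .nil) .nil)) .nil .nil) .nil .nil (.node
  .nil .nil .nil (.node (.node .nil .nil (.node .nil (.node .nil .nil (.node .nil (.node .nil
  .nil (.node .nil (.leaf 2 0) .nil .nil .nil) .nil .nil) .nil .nil .nil) .nil .nil) .nil .nil
  .nil) .nil (.node .nil .nil .nil (.node (.node .nil .nil .nil .nil (.node .nil .nil .nil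
  (.node (.leaf 1 0) .nil .nil .nil .nil) .nil)) .nil .nil .nil .nil) .nil)) .nil .nil .nil
  .nil) .nil)) .nil .nil) .nil .nil (.node .nil .nil .nil (.node (.node .nil (.node (.node .nil
  .nil .nil .nil (.node .nil .nil .nil (.node (.node .nil .nil .nil .nil (.node .nil .nil .nil
  (.node .nil .nil (.leaf 0 0) .nil .nil) .nil)) .nil .nil .nil .nil) .nil)) .nil (.node .nil
  .nil .nil .nil (.node .nil .nil .nil (.node (.node .nil .nil .nil .nil (.node .nil .nil .nil
  (.node (.leaf 0 0) .nil .nil .nil .nil) .nil)) .nil .nil .nil .nil) .nil)) .nil .nil) (.node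
  .nil (.node .nil .nil (.node .nil (.node .nil .nil (.node .nil (.node .nil .nil (.node .nil
  (.leaf 2 0) .nil .nil .nil) .nil .nil) .nil .nil .nil) .nil .nil) .nil .nil .nil) .nil .nil)
  .nil .nil .nil) .nil (.node .nil .nil .nil (.node (.node .nil (.node (.node .nil .nil .nil
  .nil (.node .nil .nil .nil (.node .nil .nil (.leaf 0 0) .nil .nil) .nil)) .nil (.node .nil
  .nil .nil .nil (.node .nil .nil .nil (.node (.leaf 0 0) .nil .nil .nil .nil) .nil)) .nil
  .nil) .nil .nil (.node .nil .nil .nil (.node (.node .nil (.node .nil .nil (.leaf 1 0) .nil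
  .nil) .nil .nil .nil) .nil .nil .nil .nil) .nil)) .nil .nil .nil .nil) .nil)) .nil .nil .nil
  .nil) .nil)) .nil .nil) .nil .nil (.node .nil .nil .nil (.node (.node .nil (.node (.node .nil
  .nil (.node (.node .nil .nil (.node .nil (.node .nil .nil (.node .nil (.node .nil .nil (.node
  .nil (.leaf 1 0) .nil .nil .nil) .nil .nil) .nil .nil .nil) .nil .nil) .nil .nil .nil) .nil
  .nil) .nil .nil .nil .nil) .nil (.node .nil .nil .nil (.node (.node .nil .nil .nil .nil
  (.node .nil .nil .nil (.node .nil .nil (.node .nil (.node .nil .nil (.leaf 0 0) .nil .nil)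
  .nil .nil .nil) .nil .nil) .nil)) .nil .nil .nil .nil) .nil)) .nil (.node (.node .nil .nil
  (.node (.node .nil (.node .nil .nil (.node .nil (.node .nil .nil (.node .nil (.leaf 2 0) .nil
  .nil .nil) .nil .nil) .nil .nil .nil) .nil .nil) .nil .nil .nil) .nil .nil .nil .nil) .nil
  .nil) (.node (.node .nil .nil (.node (.node .nil .nil (.node .nil (.node .nil .nil (.node
  .nil (.leaf 1 0) .nil .nil .nil) .nil .nil) .nil .nil .nil) .nil .nil) .nil .nil .nil .nil)
  .nil .nil) .nil (.node (.node .nil .nil (.node (.node .nil (.node .nil .nil (.node .nil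
  (.leaf 1 0) .nil .nil .nil) .nil .nil) .nil .nil .nil) .nil .nil .nil .nil) .nil .nil) (.node
  (.node .nil .nil (.node (.node .nil .nil (.node .nil (.leaf 1 0) .nil .nil .nil) .nil .nil)
  .nil .nil .nil .nil) .nil .nil) .nil (.node (.node .nil .nil (.node (.node .nil (.leaf 1 0)
  .nil .nil .nil) .nil .nil .nil .nil) .nil .nil) (.node (.node .nil .nil (.node (.leaf 2 0)
  .nil .nil .nil .nil) .nil .nil) .nil (.node .nil (.node .nil .nil (.leaf 2 0) .nil .nil) .nil
  .nil .nil) .nil .nil) .nil .nil .nil) .nil .nil) .nil .nil .nil) .nil .nil) .nil .nil .nil)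
  .nil .nil) (.node .nil (.node .nil .nil (.node .nil (.node .nil .nil (.node .nil (.node .nil
  .nil (.node .nil (.node .nil .nil (.node .nil (.leaf 2 0) .nil .nil .nil) .nil .nil) .nil
  .nil .nil) .nil .nil) .nil .nil .nil) .nil .nil) .nil .nil .nil) .nil .nil) .nil .nil .nil)
  .nil (.node .nil .nil .nil (.node (.node .nil (.node (.node .nil .nil .nil .nil (.node .nil
  .nil .nil (.node .nil .nil (.node .nil (.node .nil .nil (.leaf 0 0) .nil .nil) .nil .nil
  .nil) .nil .nil) .nil)) .nil .nil .nil .nil) .nil .nil (.node .nil .nil .nil (.node (.node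
  .nil (.node .nil .nil (.node .nil (.node .nil .nil (.leaf 1 0) .nil .nil) .nil .nil .nil)
  .nil .nil) .nil .nil .nil) .nil .nil .nil .nil) .nil)) .nil .nil .nil .nil) .nil)) .nil .nil
  .nil .nil) .nil)) .nil (.node .nil .nil .nil (.node (.node .nil (.node (.node .nil (.node
  (.node .nil .nil (.node (.node .nil (.node .nil .nil (.node .nil (.node .nil .nil (.node .nil
  (.leaf 2 0) .nil .nil .nil) .nil .nil) .nil .nil .nil) .nil .nil) .nil .nil .nil) .nil .nil
  .nil .nil) .nil .nil) .nil (.node .nil (.node .nil .nil (.node .nil (.node .nil .nil (.node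
  .nil (.node .nil .nil (.node .nil (.leaf 2 0) .nil .nil .nil) .nil .nil) .nil .nil .nil) .nil
  .nil) .nil .nil .nil) .nil .nil) .nil .nil .nil) .nil .nil) .nil .nil (.node .nil .nil .nil
  (.node (.node .nil .nil .nil .nil (.node .nil .nil .nil (.node (.node .nil (.node .nil .nil
  (.node .nil (.leaf 2 0) .nil .nil .nil) .nil .nil) .nil .nil .nil) .nil .nil .nil .nil)
  .nil)) .nil .nil .nil .nil) .nil)) .nil (.node (.node .nil .nil (.node (.node .nil .nil
  (.node .nil (.node .nil .nil (.node .nil (.node .nil .nil (.node .nil (.leaf 2 0) .nil .nil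
  .nil) .nil .nil) .nil .nil .nil) .nil .nil) .nil .nil .nil) .nil .nil) .nil .nil .nil .nil)
  .nil .nil) .nil (.node (.node .nil .nil (.node (.node .nil (.node .nil .nil (.node .nil
  (.node .nil .nil (.node .nil (.leaf 1 0) .nil .nil .nil) .nil .nil) .nil .nil .nil) .nil
  .nil) .nil .nil .nil) .nil .nil .nil .nil) .nil .nil) .nil .nil .nil .nil) .nil .nil) .nil
  .nil) (.node (.node .nil .nil (.node (.node .nil (.node .nil .nil (.node .nil (.node .nil
  .nil (.node .nil (.node .nil .nil (.node .nil (.leaf 2 0) .nil .nil .nil) .nil .nil) .nil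
  .nil .nil) .nil .nil) .nil .nil .nil) .nil .nil) .nil .nil .nil) .nil .nil .nil .nil) .nil
  .nil) (.node (.node .nil .nil (.node (.node .nil .nil (.node .nil (.node .nil .nil (.node
  .nil (.node .nil .nil (.node .nil (.leaf 2 0) .nil .nil .nil) .nil .nil) .nil .nil .nil) .nil
  .nil) .nil .nil .nil) .nil .nil) .nil .nil .nil .nil) .nil .nil) .nil (.node (.node .nil .nil
  (.node (.node .nil (.node .nil .nil (.node .nil (.node .nil .nil (.node .nil (.leaf 2 0) .nil
  .nil .nil) .nil .nil) .nil .nil .nil) .nil .nil) .nil .nil .nil) .nil .nil .nil .nil) .nil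
  .nil) (.node (.node .nil .nil (.node (.node .nil .nil (.node .nil (.node .nil .nil (.node
  .nil (.leaf 2 0) .nil .nil .nil) .nil .nil) .nil .nil .nil) .nil .nil) .nil .nil .nil .nil)
  .nil .nil) .nil (.node (.node .nil .nil (.node (.node .nil (.node .nil .nil (.node .nil
  (.leaf 2 0) .nil .nil .nil) .nil .nil) .nil .nil .nil) .nil .nil .nil .nil) .nil .nil) (.node
  (.node .nil .nil (.node (.node .nil .nil (.node .nil (.leaf 2 0) .nil .nil .nil) .nil .nil)
  .nil .nil .nil .nil) .nil .nil) .nil (.node (.node .nil .nil (.node (.node .nil (.leaf 2 0)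
  .nil .nil .nil) .nil .nil .nil .nil) .nil .nil) (.node (.node .nil .nil (.node (.leaf 3 0)
  .nil .nil .nil .nil) .nil .nil) .nil (.node .nil (.node .nil .nil (.leaf 3 0) .nil .nil) .nil
  .nil .nil) .nil .nil) .nil .nil .nil) .nil .nil) .nil .nil .nil) .nil .nil) .nil .nil .nil)
  .nil .nil) .nil .nil .nil) .nil (.node .nil .nil .nil (.node (.node .nil (.node (.node .nil
  .nil .nil .nil (.node .nil .nil .nil (.node (.node .nil (.node .nil .nil (.node .nil (.leaf 2
  0) .nil .nil .nil) .nil .nil) .nil .nil .nil) .nil .nil .nil .nil) .nil)) .nil .nil .nil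
  .nil) .nil .nil (.node .nil .nil .nil (.node (.node .nil (.node (.node .nil (.node .nil .nil
  (.node .nil (.leaf 2 0) .nil .nil .nil) .nil .nil) .nil .nil .nil) .nil .nil .nil .nil) .nil
  .nil .nil) .nil .nil .nil .nil) .nil)) .nil .nil .nil .nil) .nil)) .nil (.node (.node .nil
  .nil (.node .nil (.node .nil .nil (.node .nil (.node .nil .nil (.node .nil (.node .nil .nil
  (.node .nil (.node .nil .nil (.node .nil (.leaf 1 0) .nil .nil .nil) .nil .nil) .nil .nil
  .nil) .nil .nil) .nil .nil .nil) .nil .nil) .nil .nil .nil) .nil .nil) .nil .nil .nil) .nil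
  .nil) .nil .nil .nil .nil) .nil .nil) .nil))

end Pool.Agent.R364.Gun
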