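/-!
Kernel friendly exhaustive search for gunport configurations (core Lean only).
-/

set_option autoImplicit false

namespace Pool.Agent.R364.Gun

/-- cell letters: `o` hole, `t`/`b` upper/lower half of a vertical domino, `l`/`r` left/right half
of a horizontal domino, `w` outside the board -/
inductive C
  | o | t | b | l | r | w
  deriving DecidableEq

open C

/-- costs: horizontal, vertical -/
inductive K
  | z | h1 | h2 | v1 | v2 | h1v1 | h1v2 | h2v1
  deriving DecidableEq

/-- lists of placements with costs -/
inductive Op
  | nil
  | one (c : C) (k : K)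
  | two (c : C) (k : K) (c' : C) (k' : K)
  | three (c : C) (k : K) (c' : C) (k' : K)

open Op K

noncomputable def r01 : C → Op :=
  C.rec (motive := fun _ => Op) (one r z) (one r v1) (one r v1) (one r v1) (one r v1) (one r v1)
noncomputable def r12 : C → Op :=
  C.rec (motive := fun _ => Op) (one r v1) (one r v2) (one r v2) (one r v2) (one r v2) (one r v2)
noncomputable def b01 : C → Op :=
  C.rec (motive := fun _ => Op) (one b z) (one b h1) (one b h1) (one b h1) (one b h1) (one b h1)
noncomputable def b12 : C → Op :=
  C.rec (motive := fun _ => Op) (one b h1) (one b h2) (one b h2) (one b h2) (one b h2) (one b h2)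

/-- placements below `u`, right of `x`, as a function of the upper left letter -/
noncomputable def tbl : C → C → C → Op :=
  C.rec (motive := fun _ => C → C → Op)
    (C.rec (motive := fun _ => C → Op)
      (fun _ => two t z l z)
      (fun _ => two t z l h1)
      (fun _ => two t z l h1)
      (fun _ => one r z)
      (fun _ => two t h1 l h2)
      (fun _ => two t z l z))
    (C.rec (motive := fun _ => C → Op)
      (fun _ => one b z) b01 b12 (fun _ => nil) b12 (fun _ => one b z))
    (C.rec (motive := fun _ => C → Op)
      (fun _ => two t v2 l v1)
      (fun _ => three t v2 l h1v1)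
      (fun _ => three t h1v2 l h2v1)
      r12
      (fun _ => three t h1v2 l h2v1)
      (fun _ => three t v2 l v1))
    (C.rec (motive := fun _ => C → Op)
      (fun _ => two t v1 l z)
      (fun _ => three t v1 l h1)
      (fun _ => three t h1v1 l h2)
      r01
      (fun _ => three t h1v1 l h2)
      (fun _ => three t v1 l z))
    (C.rec (motive := fun _ => C → Op)
      (fun _ => two t v1 l z)
      (fun _ => three t v2 l h1v1)
      (fun _ => three t h1v2 l h2v1)
      r12
      (fun _ => three t h1v2 l h2v1)
      (fun _ => three t v2 l v1))
    (fun _ _ => nil)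

noncomputable def s1 (k : Nat → Bool) : Nat → Bool :=
  Nat.rec (motive := fun _ => Bool) true (fun m _ => k m)
noncomputable def s2 (k : Nat → Bool) : Nat → Bool := s1 (s1 k)

/-- spend the cost; answer `true` if the budget does not allow it -/
noncomputable def sp (f : Nat → Nat → Bool) (bh bv : Nat) : K → Bool :=
  K.rec (motive := fun _ => Bool) (f bh bv)
    (s1 (fun h => f h bv) bh) (s2 (fun h => f h bv) bh)
    (s1 (f bh) bv) (s2 (f bh) bv)
    (s1 (fun h => s1 (f h) bv) bh)
    (s1 (fun h => s2 (f h) bv) bh)
    (s2 (fun h => s1 (f h) bv) bh)

noncomputable def opts (f : C → Nat → Nat → Bool) (bh bv : Nat) : Op → Bool :=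
  Op.rec (motive := fun _ => Bool) true
    (fun c k => sp (f c) bh bv k)
    (fun c k c' k' => Bool.rec (motive := fun _ => Bool) false (sp (f c') bh bv k')
      (sp (f c) bh bv k))
    (fun c k c' k' => Bool.rec (motive := fun _ => Bool) false
      (Bool.rec (motive := fun _ => Bool) false (sp (f c') bh bv k') (sp (f c) bh bv k))
      (f o bh bv))

/-- one row: remaining row above, left neighbour, upper left neighbour, reversed row so far,
budgets -/
noncomputable def row (k : List C → Nat → Nat → Bool) : List C → C → C → List C → Nat → Nat → Bool :=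
  List.rec (motive := fun _ => C → C → List C → Nat → Nat → Bool)
    (fun x _ acc bh bv => C.rec (motive := fun _ => Bool)
      (k acc bh bv) (k acc bh bv) (k acc bh bv) true (k acc bh bv) (k acc bh bv) x)
    (fun u _ ih x y acc bh bv =>
      opts (fun c => ih c u (List.cons c acc)) bh bv (tbl u x y))

noncomputable def ttbl : C → Op :=
  C.rec (motive := fun _ => Op)
    (two t z l z)
    (three t v1 l h1v1)
    nil
    (one r z)
    (three t h1v1 l h2v1)
    (three t v1 l v1)

/-- top row -/
noncomputable def top (k : List C → Nat → Nat → Bool) : Nat → C → List C → Nat → Nat → Bool :=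
  Nat.rec (motive := fun _ => C → List C → Nat → Nat → Bool)
    (fun x acc bh bv => C.rec (motive := fun _ => Bool)
      (k acc bh bv) (s1 (fun bv => k acc bh bv) bv) true true
      (s1 (fun bv => k acc bh bv) bv) true x)
    (fun _ ih x acc bh bv =>
      opts (fun c bh' bv' => ih c (c :: acc) bh' bv') bh bv (ttbl x))

noncomputable def rev : List C → List C → List C :=
  List.rec (motive := fun _ => List C → List C) (fun acc => acc) (fun a _ ih acc => ih (List.cons a acc))

/-- does the row contain the letter `t`? -/
noncomputable def hasT : List C → Bool :=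
  List.rec (motive := fun _ => Bool) false
    (fun a _ ih => C.rec (motive := fun _ => Bool) ih true ih ih ih ih a)

/-- `n` further rows after `acc` (reversed), then `k` -/
noncomputable def down (k : List C → Nat → Nat → Bool) : Nat → List C → Nat → Nat → Bool :=
  Nat.rec (motive := fun _ => List C → Nat → Nat → Bool) k
    (fun _ ih acc bh bv => row ih (rev acc []) w w [] bh bv)

/-- the check for the lower part: `row8` in natural order -/
noncomputable def low (row8 : List C) (bh bv : Nat) : Bool :=
  Nat.rec (motive := fun _ => Bool)
    (row (fun acc bh' bv' => down (fun acc _ _ => hasT acc) 7 acc bh' (Nat.succ (Nat.succ bv')))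
      row8 w w [] bh 0)
    (fun m _ => row (down (fun acc _ _ => hasT acc) 7) row8 w w [] bh
      (Nat.succ (Nat.succ (Nat.succ m)))) bv

/-- tries of rows with budgets -/
inductive Tr
  | nil
  | leaf (bh bv : Nat)
  | node (o t b l r : Tr)

noncomputable def memb (bh bv : Nat) : List C → Tr → Bool :=
  List.rec (motive := fun _ => Tr → Bool)
    (Tr.rec (motive := fun _ => Bool) false
      (fun bh' bv' => Bool.rec (motive := fun _ => Bool) false (Nat.ble bv bv') (Nat.ble bh bh'))
      (fun _ _ _ _ _ _ _ _ _ _ => false))
    (fun c _ ih => Tr.rec (motive := fun _ => Bool) false (fun _ _ => false)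
      (fun t1 t2 t3 t4 t5 _ _ _ _ _ => C.rec (motive := fun _ => Bool)
        (ih t1) (ih t2) (ih t3) (ih t4) (ih t5) false c))

noncomputable def allT (f : List C → Nat → Nat → Bool) : Tr → List C → Bool :=
  Tr.rec (motive := fun _ => List C → Bool) (fun _ => true)
    (fun bh bv p => f p bh bv)
    (fun _ _ _ _ _ i1 i2 i3 i4 i5 p =>
      Bool.rec (motive := fun _ => Bool) false
        (Bool.rec (motive := fun _ => Bool) false
          (Bool.rec (motive := fun _ => Bool) false
            (Bool.rec (motive := fun _ => Bool) false
              (i5 (C.r :: p)) (i4 (C.l :: p))) (i3 (C.b :: p))) (i2 (C.t :: p))) (i1 (C.o :: p)))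

end Pool.Agent.R364.Gun
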