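import Mathlib
import Pool.Agent.R364.Gun.Search

set_option autoImplicit false

namespace Pool.Agent.R364.Gun

open C K Op

instance : Fintype C := ⟨{o, t, b, l, r, w}, by intro x; cases x <;> decide⟩

/-- vertical cost of `c` below `u`; `x`, `y` are the cells to the left of `c`, `u` -/
def costV (x y u c : C) : ℕ :=
  (if u = b ∧ c ≠ o then 1 else 0) + (if u = r ∧ x ≠ o ∧ c ≠ o then 1 else 0) +
  (if c = t ∧ u ≠ o then 1 else 0) + (if c = r ∧ y ≠ o ∧ u ≠ o then 1 else 0)

/-- exchange of rows and columns -/
def tau : C → C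
  | o => o
  | t => l
  | b => r
  | l => t
  | r => b
  | w => w

def costH (x y u c : C) : ℕ := if x = w then 0 else costV (tau u) (tau y) (tau x) (tau c)

/-- cost of the first row -/
def costT (x c : C) : ℕ := if c ≠ o ∧ x ≠ o ∧ x ≠ l then 1 else 0

def okb (u x c : C) : Bool :=
  decide (((u = t) ↔ (c = b)) ∧ ((x = l) ↔ (c = r)) ∧ ¬ (u = o ∧ c = o) ∧ ¬ (x = o ∧ c = o))

def okt (x c : C) : Bool :=
  decide (c ≠ b ∧ ((x = l) ↔ (c = r)) ∧ ¬ (x = o ∧ c = o))

def kh : K → ℕ
  | z => 0 | h1 => 1 | h2 => 2 | v1 => 0 | v2 => 0 | h1v1 => 1 | h1v2 => 1 | h2v1 => 2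

def kv : K → ℕ
  | z => 0 | h1 => 0 | h2 => 0 | v1 => 1 | v2 => 2 | h1v1 => 1 | h1v2 => 2 | h2v1 => 1

noncomputable def memOp (c : C) (h v : ℕ) : Op → Bool :=
  Op.rec (motive := fun _ => Bool) false
    (fun c1 k1 => decide (c = c1 ∧ h = kh k1 ∧ v = kv k1))
    (fun c1 k1 c2 k2 => decide (c = c1 ∧ h = kh k1 ∧ v = kv k1) ||
      decide (c = c2 ∧ h = kh k2 ∧ v = kv k2))
    (fun c1 k1 c2 k2 => decide (c = c1 ∧ h = kh k1 ∧ v = kv k1) ||
      decide (c = c2 ∧ h = kh k2 ∧ v = kv k2) || decide (c = o ∧ h = 0 ∧ v = 0))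

theorem tbl_mem : ∀ u x y c : C, (u ≠ w ∧ c ≠ w ∧ okb u x c = true) →
    memOp c (costH x y u c) (costV x y u c) (tbl u x y) = true := by
  decide +kernel

theorem ttbl_mem : ∀ x c : C, (x ≠ b ∧ c ≠ w ∧ okt x c = true) →
    memOp c (costH x w w c) (costT x c) (ttbl x) = true := by
  decide +kernel

theorem brec_true {x y : Bool} (h : Bool.rec (motive := fun _ => Bool) false x y = true) :
    y = true ∧ x = true := by
  cases y
  · exact absurd h (by simp)
  · exact ⟨rfl, h⟩

theorem sp_sound (f : ℕ → ℕ → Bool) (bh bv : ℕ) (k : K) (hh : kh k ≤ bh) (hv : kv k ≤ bv) :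
    sp f bh bv k = f (bh - kh k) (bv - kv k) := by
  obtain ⟨m, rfl⟩ := Nat.exists_eq_add_of_le' hh
  obtain ⟨n, rfl⟩ := Nat.exists_eq_add_of_le' hv
  rw [Nat.add_sub_cancel, Nat.add_sub_cancel]
  cases k <;> rfl

theorem opts_sound (f : C → ℕ → ℕ → Bool) (bh bv : ℕ) (op : Op) (c : C) (h v : ℕ)
    (hm : memOp c h v op = true) (hh : h ≤ bh) (hv : v ≤ bv) (hop : opts f bh bv op = true) :
    f c (bh - h) (bv - v) = true := by
  cases op with
  | nil => exact absurd hm (by simp [memOp])
  | one c1 k1 =>
    simp only [memOp, decide_eq_true_eq] at hm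
    obtain ⟨rfl, rfl, rfl⟩ := hm
    have h1 : sp (f c) bh bv k1 = true := hop
    rwa [sp_sound _ _ _ _ hh hv] at h1
  | two c1 k1 c2 k2 =>
    simp only [memOp, Bool.or_eq_true, decide_eq_true_eq] at hm
    have h1 := brec_true (show Bool.rec (motive := fun _ => Bool) false (sp (f c2) bh bv k2)
      (sp (f c1) bh bv k1) = true from hop)
    rcases hm with ⟨rfl, rfl, rfl⟩ | ⟨rfl, rfl, rfl⟩
    · have h2 := h1.1
      rwa [sp_sound _ _ _ _ hh hv] at h2
    · have h2 := h1.2
      rwa [sp_sound _ _ _ _ hh hv] at h2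
  | three c1 k1 c2 k2 =>
    simp only [memOp, Bool.or_eq_true, decide_eq_true_eq] at hm
    have h0 := brec_true (show Bool.rec (motive := fun _ => Bool) false
      (Bool.rec (motive := fun _ => Bool) false (sp (f c2) bh bv k2) (sp (f c1) bh bv k1))
      (f o bh bv) = true from hop)
    have h1 := brec_true h0.2
    rcases hm with (⟨rfl, rfl, rfl⟩ | ⟨rfl, rfl, rfl⟩) | ⟨rfl, rfl, rfl⟩
    · have h2 := h1.1
      rwa [sp_sound _ _ _ _ hh hv] at h2
    · have h2 := h1.2
      rwa [sp_sound _ _ _ _ hh hv] at h2
    · exact h0.1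

/-- `cs` is a possible rest of the row below the rest `prev`, with total costs `h`, `v` -/
def Comp : List C → List C → C → C → ℕ → ℕ → Prop
  | [], [], x, _, h, v => x ≠ l ∧ h = 0 ∧ v = 0
  | u :: us, c :: cs, x, y, h, v => (u ≠ w ∧ c ≠ w ∧ okb u x c = true) ∧
      ∃ h' v', h = costH x y u c + h' ∧ v = costV x y u c + v' ∧ Comp us cs c u h' v'
  | [], _ :: _, _, _, _, _ => False
  | _ :: _, [], _, _, _, _ => False

theorem row_sound (k : List C → ℕ → ℕ → Bool) : ∀ (prev cs : List C) (x y : C) (acc : List C)
    (bh bv h v : ℕ), Comp prev cs x y h v → h ≤ bh → v ≤ bv →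
    row k prev x y acc bh bv = true → k (cs.reverse ++ acc) (bh - h) (bv - v) = true := by
  intro prev
  induction prev with
  | nil =>
    intro cs x y acc bh bv h v hc hh hv hr
    cases cs with
    | cons c cs => exact absurd hc (by simp [Comp])
    | nil =>
      obtain ⟨hx, rfl, rfl⟩ := hc
      have : k acc bh bv = true := by
        cases x with
        | l => exact absurd rfl hx
        | o => exact hr
        | t => exact hr
        | b => exact hr
        | r => exact hr
        | w => exact hr
      simpa using this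
  | cons u us ih =>
    intro cs x y acc bh bv h v hc hh hv hr
    cases cs with
    | nil => exact absurd hc (by simp [Comp])
    | cons c cs =>
      obtain ⟨hok, h', v', rfl, rfl, hc'⟩ := hc
      have hm := tbl_mem u x y c hok
      have h1 := opts_sound (fun c => row k us c u (c :: acc)) bh bv (tbl u x y) c _ _ hm
        (by omega) (by omega) hr
      have h2 := ih cs c u (c :: acc) (bh - costH x y u c) (bv - costV x y u c) h' v' hc'
        (by omega) (by omega) h1
      rw [List.reverse_cons, List.append_assoc, List.singleton_append]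
      have e1 : bh - costH x y u c - h' = bh - (costH x y u c + h') := by omega
      have e2 : bv - costV x y u c - v' = bv - (costV x y u c + v') := by omega
      rwa [e1, e2] at h2

def TComp : List C → C → ℕ → ℕ → Prop
  | [], x, h, v => (x = o ∧ h = 0 ∧ v = 0) ∨ ((x = t ∨ x = r) ∧ h = 0 ∧ v = 1)
  | c :: cs, x, h, v => (x ≠ b ∧ c ≠ w ∧ okt x c = true) ∧
      ∃ h' v', h = costH x w w c + h' ∧ v = costT x c + v' ∧ TComp cs c h' v'

theorem top_sound (k : List C → ℕ → ℕ → Bool) : ∀ (cs : List C) (x : C) (acc : List C)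
    (bh bv h v : ℕ), TComp cs x h v → h ≤ bh → v ≤ bv →
    top k cs.length x acc bh bv = true → k (cs.reverse ++ acc) (bh - h) (bv - v) = true := by
  intro cs
  induction cs with
  | nil =>
    intro x acc bh bv h v hc hh hv hr
    rcases hc with ⟨rfl, rfl, rfl⟩ | ⟨hx, rfl, rfl⟩
    · exact hr
    · obtain ⟨n, rfl⟩ := Nat.exists_eq_add_of_le' hv
      rcases hx with rfl | rfl
      · exact hr
      · exact hr
  | cons c cs ih =>
    intro x acc bh bv h v hc hh hv hr
    obtain ⟨hok, h', v', rfl, rfl, hc'⟩ := hc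
    have hm := ttbl_mem x c hok
    have h1 := opts_sound (fun c bh' bv' => top k cs.length c (c :: acc) bh' bv') bh bv (ttbl x) c
      _ _ hm (by omega) (by omega) hr
    have h2 := ih c (c :: acc) (bh - costH x w w c) (bv - costT x c) h' v' hc'
      (by omega) (by omega) h1
    rw [List.reverse_cons, List.append_assoc, List.singleton_append]
    have e1 : bh - costH x w w c - h' = bh - (costH x w w c + h') := by omega
    have e2 : bv - costT x c - v' = bv - (costT x c + v') := by omega
    rwa [e1, e2] at h2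

theorem rev_eq : ∀ (a acc : List C), rev a acc = a.reverse ++ acc := by
  intro a
  induction a with
  | nil => intro acc; rfl
  | cons c a ih =>
    intro acc
    have : rev (c :: a) acc = rev a (c :: acc) := rfl
    rw [this, ih, List.reverse_cons, List.append_assoc, List.singleton_append]

theorem hasT_eq : ∀ a : List C, hasT a = true → t ∈ a := by
  intro a
  induction a with
  | nil => intro h; exact absurd h (by simp [hasT])
  | cons c a ih =>
    intro h
    cases c with
    | t => exact List.mem_cons_self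
    | o => exact List.mem_cons_of_mem _ (ih h)
    | b => exact List.mem_cons_of_mem _ (ih h)
    | l => exact List.mem_cons_of_mem _ (ih h)
    | r => exact List.mem_cons_of_mem _ (ih h)
    | w => exact List.mem_cons_of_mem _ (ih h)

theorem memb_sound (f : List C → ℕ → ℕ → Bool) (bh bv : ℕ) : ∀ (acc : List C) (tr : Tr)
    (p : List C), memb bh bv acc tr = true → allT f tr p = true →
    ∃ bh' bv', bh ≤ bh' ∧ bv ≤ bv' ∧ f (acc.reverse ++ p) bh' bv' = true := by
  intro acc
  induction acc with
  | nil =>
    intro tr p hm ha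
    cases tr with
    | nil => exact absurd hm (by simp [memb])
    | leaf bh' bv' =>
      have h1 := brec_true (show Bool.rec (motive := fun _ => Bool) false (Nat.ble bv bv')
        (Nat.ble bh bh') = true from hm)
      exact ⟨bh', bv', Nat.le_of_ble_eq_true h1.1, Nat.le_of_ble_eq_true h1.2, ha⟩
    | node t1 t2 t3 t4 t5 => exact absurd hm (by simp [memb])
  | cons c acc ih =>
    intro tr p hm ha
    rw [List.reverse_cons, List.append_assoc, List.singleton_append]
    cases tr with
    | nil => exact absurd hm (by simp [memb])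
    | leaf bh' bv' => exact absurd hm (by simp [memb])
    | node t1 t2 t3 t4 t5 =>
      have a1 := brec_true (show Bool.rec (motive := fun _ => Bool) false
        (Bool.rec (motive := fun _ => Bool) false
          (Bool.rec (motive := fun _ => Bool) false
            (Bool.rec (motive := fun _ => Bool) false
              (allT f t5 (C.r :: p)) (allT f t4 (C.l :: p))) (allT f t3 (C.b :: p)))
          (allT f t2 (C.t :: p))) (allT f t1 (C.o :: p)) = true from ha)
      have a2 := brec_true a1.2
      have a3 := brec_true a2.2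
      have a4 := brec_true a3.2
      cases c with
      | o => exact ih t1 _ hm a1.1
      | t => exact ih t2 _ hm a2.1
      | b => exact ih t3 _ hm a3.1
      | l => exact ih t4 _ hm a4.1
      | r => exact ih t5 _ hm a4.2
      | w => exact absurd hm (by simp [memb])

end Pool.Agent.R364.Gun
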