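import Mathlib
import Pool.Agent.R364.Gun.Sound

set_option autoImplicit false

namespace Pool.Agent.R364.Gun

open C Finset

/-- letter descriptions of gunport configurations on the board with `R` rows and `W` columns -/
structure Valid (R W : ℕ) (c : ℕ → ℕ → C) : Prop where
  nw : ∀ i j, i < R → j < W → c i j ≠ w
  tb : ∀ i j, i + 1 < R → j < W → (c i j = t ↔ c (i + 1) j = b)
  lr : ∀ i j, i < R → j + 1 < W → (c i j = l ↔ c i (j + 1) = r)
  b0 : ∀ j, j < W → c 0 j ≠ b
  tR : ∀ j, j < W → c (R - 1) j ≠ t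
  r0 : ∀ i, i < R → c i 0 ≠ r
  lW : ∀ i, i < R → c i (W - 1) ≠ l
  vo : ∀ i j, i + 1 < R → j < W → ¬ (c i j = o ∧ c (i + 1) j = o)
  ho : ∀ i j, i < R → j + 1 < W → ¬ (c i j = o ∧ c i (j + 1) = o)

/-- indicator -/
def ind (x y : C) : ℕ := if x = y then 1 else 0

/-- left neighbour (`w` at the border) -/
def xa (c : ℕ → ℕ → C) (i j : ℕ) : C := if j = 0 then w else c i (j - 1)
/-- upper neighbour -/
def ua (c : ℕ → ℕ → C) (i j : ℕ) : C := if i = 0 then w else c (i - 1) j
/-- upper left neighbour -/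
def ya (c : ℕ → ℕ → C) (i j : ℕ) : C := if i = 0 then w else xa c (i - 1) j

/-- vertical cost of row `i ≥ 1` -/
def Vc (W : ℕ) (c : ℕ → ℕ → C) (i : ℕ) : ℕ :=
  ∑ j ∈ range W, costV (xa c i j) (ya c i j) (ua c i j) (c i j)

/-- horizontal cost of row `i` -/
def Hc (W : ℕ) (c : ℕ → ℕ → C) (i : ℕ) : ℕ :=
  ∑ j ∈ range W, costH (xa c i j) (ya c i j) (ua c i j) (c i j)

/-- cost of the top row -/
def Xt (W : ℕ) (c : ℕ → ℕ → C) : ℕ :=
  ∑ j ∈ range W, costT (xa c 0 j) (c 0 j) + (if c 0 (W - 1) = o then 0 else 1)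

/-- number of letters `s` in row `i` -/
def nn (W : ℕ) (c : ℕ → ℕ → C) (s : C) (i : ℕ) : ℕ := ∑ j ∈ range W, ind (c i j) s

theorem pw : ∀ x y u c : C, (u ≠ w ∧ c ≠ w ∧ ¬ (x = o ∧ c = o) ∧ ¬ (y = o ∧ u = o) ∧ ¬ (u = o ∧ c = o) ∧
    (u = t ↔ c = b)) →
    costV x y u c + ind c o + ind u o + (ind u r * ind x o + ind c r * ind y o) =
      ind u b + ind u r + ind c t + ind c r + (ind u l * ind c o + ind c l * ind u o) := by
  decide +kernel

theorem Vc_eq {R W : ℕ} {c : ℕ → ℕ → C} (hv : Valid R W c) (hW : 1 ≤ W) (i : ℕ)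
    (hi : i + 1 < R) :
    Vc W c (i + 1) + nn W c o (i + 1) + nn W c o i =
      nn W c b i + nn W c r i + nn W c t (i + 1) + nn W c r (i + 1) := by
  have key : ∀ n, n ≤ W →
      ∑ j ∈ range n, (costV (xa c (i + 1) j) (ya c (i + 1) j) (ua c (i + 1) j) (c (i + 1) j) +
        ind (c (i + 1) j) o + ind (c i j) o) =
      ∑ j ∈ range n, (ind (c i j) b + ind (c i j) r + ind (c (i + 1) j) t +
        ind (c (i + 1) j) r) +
      (if n = 0 then 0 else (ind (c i (n - 1)) l * ind (c (i + 1) (n - 1)) o +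
        ind (c (i + 1) (n - 1)) l * ind (c i (n - 1)) o)) := by
    intro n
    induction n with
    | zero => intro _; simp
    | succ n ih =>
      intro hn
      rw [Finset.sum_range_succ, Finset.sum_range_succ, ih (by omega)]
      have hu : ua c (i + 1) n = c i n := by simp [ua]
      have hy : ya c (i + 1) n = xa c i n := by simp [ya]
      have h1 := pw (xa c (i + 1) n) (xa c i n) (c i n) (c (i + 1) n) (by
        refine ⟨hv.nw i n (by omega) (by omega), hv.nw (i + 1) n (by omega) (by omega), ?_, ?_,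
          hv.vo i n hi (by omega), hv.tb i n hi (by omega)⟩
        · rintro ⟨h1, h2⟩
          rcases Nat.eq_zero_or_pos n with h0 | hpos
          · subst h0; simp [xa] at h1
          · obtain ⟨m, rfl⟩ : ∃ m, n = m + 1 := ⟨n - 1, by omega⟩
            simp [xa] at h1
            exact hv.ho (i + 1) m (by omega) (by omega) ⟨h1, h2⟩
        · rintro ⟨h1, h2⟩
          rcases Nat.eq_zero_or_pos n with h0 | hpos
          · subst h0; simp [xa] at h1
          · obtain ⟨m, rfl⟩ : ∃ m, n = m + 1 := ⟨n - 1, by omega⟩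
            simp [xa] at h1
            exact hv.ho i m (by omega) (by omega) ⟨h1, h2⟩)
      rw [hu, hy]
      have h2 : (if n = 0 then 0 else (ind (c i (n - 1)) l * ind (c (i + 1) (n - 1)) o +
        ind (c (i + 1) (n - 1)) l * ind (c i (n - 1)) o)) =
          ind (c i n) r * ind (xa c (i + 1) n) o + ind (c (i + 1) n) r * ind (xa c i n) o := by
        rcases Nat.eq_zero_or_pos n with h0 | hpos
        · subst h0; simp [xa, ind]
        · obtain ⟨m, rfl⟩ : ∃ m, n = m + 1 := ⟨n - 1, by omega⟩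
          have e1 : ind (c i m) l = ind (c i (m + 1)) r := by
            unfold ind
            by_cases h : c i m = l
            · rw [if_pos h, if_pos ((hv.lr i m (by omega) (by omega)).1 h)]
            · rw [if_neg h, if_neg (fun h' => h ((hv.lr i m (by omega) (by omega)).2 h'))]
          have e2 : ind (c (i + 1) m) l = ind (c (i + 1) (m + 1)) r := by
            unfold ind
            by_cases h : c (i + 1) m = l
            · rw [if_pos h, if_pos ((hv.lr (i + 1) m (by omega) (by omega)).1 h)]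
            · rw [if_neg h, if_neg (fun h' => h ((hv.lr (i + 1) m (by omega) (by omega)).2 h'))]
          simp only [Nat.add_sub_cancel, xa, Nat.succ_ne_zero, if_false]
          rw [e1, e2]
      rw [h2]
      simp only [Nat.succ_ne_zero, if_false, Nat.add_sub_cancel]
      omega
  have h := key W le_rfl
  have h0 : (if W = 0 then 0 else (ind (c i (W - 1)) l * ind (c (i + 1) (W - 1)) o +
        ind (c (i + 1) (W - 1)) l * ind (c i (W - 1)) o)) = 0 := by
    have e1 : ind (c i (W - 1)) l = 0 := by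
      unfold ind; rw [if_neg (hv.lW i (by omega))]
    have e2 : ind (c (i + 1) (W - 1)) l = 0 := by
      unfold ind; rw [if_neg (hv.lW (i + 1) (by omega))]
    rw [e1, e2]; simp
  rw [h0, add_zero, Finset.sum_add_distrib, Finset.sum_add_distrib, Finset.sum_add_distrib,
    Finset.sum_add_distrib, Finset.sum_add_distrib] at h
  exact h

theorem pt : ∀ x c : C, (c ≠ w ∧ ¬ (x = o ∧ c = o) ∧ (x = l ↔ c = r)) →
    costT x c + ind c o + (ind x o + ind x l) =
      ind c t + ind c b + ind c r + (ind c o + ind c l) := by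
  decide +kernel

theorem Xt_eq {R W : ℕ} {c : ℕ → ℕ → C} (hv : Valid R W c) (hW : 1 ≤ W) (hR : 1 ≤ R) :
    Xt W c + nn W c o 0 = nn W c t 0 + nn W c b 0 + nn W c r 0 + 1 := by
  have key : ∀ n, n ≤ W →
      ∑ j ∈ range n, (costT (xa c 0 j) (c 0 j) + ind (c 0 j) o) =
      ∑ j ∈ range n, (ind (c 0 j) t + ind (c 0 j) b + ind (c 0 j) r) +
      (if n = 0 then 0 else (ind (c 0 (n - 1)) o + ind (c 0 (n - 1)) l)) := by
    intro n
    induction n with
    | zero => intro _; simp
    | succ n ih =>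
      intro hn
      rw [Finset.sum_range_succ, Finset.sum_range_succ, ih (by omega)]
      have h1 := pt (xa c 0 n) (c 0 n) (by
        refine ⟨hv.nw 0 n (by omega) (by omega), ?_, ?_⟩
        · rintro ⟨h1, h2⟩
          rcases Nat.eq_zero_or_pos n with h0 | hpos
          · subst h0; simp [xa] at h1
          · obtain ⟨m, rfl⟩ : ∃ m, n = m + 1 := ⟨n - 1, by omega⟩
            simp [xa] at h1
            exact hv.ho 0 m (by omega) (by omega) ⟨h1, h2⟩
        · rcases Nat.eq_zero_or_pos n with h0 | hpos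
          · subst h0
            simp only [xa, if_true]
            constructor
            · intro h; exact absurd h (by decide)
            · intro h; exact absurd h (hv.r0 0 (by omega))
          · obtain ⟨m, rfl⟩ : ∃ m, n = m + 1 := ⟨n - 1, by omega⟩
            simp only [xa, Nat.succ_ne_zero, if_false, Nat.add_sub_cancel]
            exact hv.lr 0 m (by omega) (by omega))
      have h2 : (if n = 0 then 0 else (ind (c 0 (n - 1)) o + ind (c 0 (n - 1)) l)) =
          ind (xa c 0 n) o + ind (xa c 0 n) l := by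
        rcases Nat.eq_zero_or_pos n with h0 | hpos
        · subst h0; simp [xa, ind]
        · obtain ⟨m, rfl⟩ : ∃ m, n = m + 1 := ⟨n - 1, by omega⟩
          simp [xa]
      rw [h2]
      simp only [Nat.succ_ne_zero, if_false, Nat.add_sub_cancel]
      omega
  have h := key W le_rfl
  have hl : ind (c 0 (W - 1)) l = 0 := by unfold ind; rw [if_neg (hv.lW 0 (by omega))]
  rw [hl, add_zero, if_neg (by omega), Finset.sum_add_distrib, Finset.sum_add_distrib,
    Finset.sum_add_distrib] at h
  have h3 : ind (c 0 (W - 1)) o + (if c 0 (W - 1) = o then 0 else 1) = 1 := by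
    unfold ind; split_ifs <;> rfl
  unfold Xt nn
  omega

/-- exchange of `t` and `b` -/
def sig : C → C
  | o => o
  | t => b
  | b => t
  | l => l
  | r => r
  | w => w

theorem sig_inj : ∀ x y : C, (sig x = y) ↔ (x = sig y) := by decide
theorem tau_inj : ∀ x y : C, (tau x = y) ↔ (x = tau y) := by decide

def flip (R : ℕ) (c : ℕ → ℕ → C) : ℕ → ℕ → C := fun i j => sig (c (R - 1 - i) j)
def tr (c : ℕ → ℕ → C) : ℕ → ℕ → C := fun i j => tau (c j i)

theorem flip_valid {R W : ℕ} {c : ℕ → ℕ → C} (hv : Valid R W c) (hR : 1 ≤ R) :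
    Valid R W (flip R c) where
  nw i j hi hj := by
    unfold flip; rw [Ne, sig_inj]; exact hv.nw _ j (by omega) hj
  tb i j hi hj := by
    unfold flip; rw [sig_inj, sig_inj]
    have h := hv.tb (R - 1 - (i + 1)) j (by omega) hj
    have e : R - 1 - (i + 1) + 1 = R - 1 - i := by omega
    rw [e] at h
    exact h.symm
  lr i j hi hj := by
    unfold flip; rw [sig_inj, sig_inj]
    exact hv.lr _ j (by omega) hj
  b0 j hj := by
    unfold flip; rw [Ne, sig_inj]; exact hv.tR j hj
  tR j hj := by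
    unfold flip; rw [Ne, sig_inj]
    have e : R - 1 - (R - 1) = 0 := by omega
    rw [e]; exact hv.b0 j hj
  r0 i hi := by
    unfold flip; rw [Ne, sig_inj]; exact hv.r0 _ (by omega)
  lW i hi := by
    unfold flip; rw [Ne, sig_inj]; exact hv.lW _ (by omega)
  vo i j hi hj := by
    unfold flip; rw [sig_inj, sig_inj]
    rintro ⟨h1, h2⟩
    have e : R - 1 - (i + 1) + 1 = R - 1 - i := by omega
    exact hv.vo (R - 1 - (i + 1)) j (by omega) hj ⟨h2, by rw [e]; exact h1⟩
  ho i j hi hj := by
    unfold flip; rw [sig_inj, sig_inj]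
    exact hv.ho _ j (by omega) hj

theorem tr_valid {R W : ℕ} {c : ℕ → ℕ → C} (hv : Valid R W c) : Valid W R (tr c) where
  nw i j hi hj := by unfold tr; rw [Ne, tau_inj]; exact hv.nw j i hj hi
  tb i j hi hj := by unfold tr; rw [tau_inj, tau_inj]; exact hv.lr j i hj hi
  lr i j hi hj := by unfold tr; rw [tau_inj, tau_inj]; exact hv.tb j i hj hi
  b0 j hj := by unfold tr; rw [Ne, tau_inj]; exact hv.r0 j hj
  tR j hj := by unfold tr; rw [Ne, tau_inj]; exact hv.lW j hj
  r0 i hi := by unfold tr; rw [Ne, tau_inj]; exact hv.b0 i hi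
  lW i hi := by unfold tr; rw [Ne, tau_inj]; exact hv.tR i hi
  vo i j hi hj := by unfold tr; rw [tau_inj, tau_inj]; exact hv.ho j i hj hi
  ho i j hi hj := by unfold tr; rw [tau_inj, tau_inj]; exact hv.vo j i hj hi

theorem ind_sig (x y : C) : ind (sig x) y = ind x (sig y) := by
  unfold ind
  by_cases h : sig x = y
  · rw [if_pos h, if_pos ((sig_inj x y).1 h)]
  · rw [if_neg h, if_neg (fun h' => h ((sig_inj x y).2 h'))]

theorem nn_flip (R W : ℕ) (c : ℕ → ℕ → C) (s : C) (i : ℕ) :
    nn W (flip R c) s i = nn W c (sig s) (R - 1 - i) := by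
  unfold nn flip
  exact Finset.sum_congr rfl (fun j _ => ind_sig _ _)

theorem Vc_flip {R W : ℕ} {c : ℕ → ℕ → C} (hv : Valid R W c) (hW : 1 ≤ W) (i : ℕ)
    (hi : i + 1 < R) : Vc W (flip R c) (i + 1) = Vc W c (R - 1 - i) := by
  have h1 := Vc_eq (flip_valid hv (by omega)) hW i hi
  rw [nn_flip, nn_flip, nn_flip, nn_flip, nn_flip, nn_flip] at h1
  have h2 := Vc_eq hv hW (R - 1 - (i + 1)) (by omega)
  have e : R - 1 - (i + 1) + 1 = R - 1 - i := by omega
  rw [e] at h2
  simp only [sig] at h1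
  omega

/-- total numbers -/
def NN (R W : ℕ) (c : ℕ → ℕ → C) (s : C) : ℕ := ∑ i ∈ range R, nn W c s i

theorem NN_tb {R W : ℕ} {c : ℕ → ℕ → C} (hv : Valid R W c) (hR : 1 ≤ R) :
    NN R W c t = NN R W c b := by
  obtain ⟨n, rfl⟩ : ∃ n, R = n + 1 := ⟨R - 1, by omega⟩
  unfold NN
  rw [Finset.sum_range_succ, Finset.sum_range_succ' (fun i => nn W c b i)]
  have h1 : nn W c t n = 0 := by
    unfold nn
    apply Finset.sum_eq_zero
    intro j hj
    unfold ind
    rw [if_neg]
    have := hv.tR j (Finset.mem_range.1 hj)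
    simpa using this
  have h2 : nn W c b 0 = 0 := by
    unfold nn
    apply Finset.sum_eq_zero
    intro j hj
    unfold ind
    rw [if_neg (hv.b0 j (Finset.mem_range.1 hj))]
  rw [h1, h2]
  congr 1
  apply Finset.sum_congr rfl
  intro i hi
  unfold nn
  apply Finset.sum_congr rfl
  intro j hj
  have h := hv.tb i j (by have := Finset.mem_range.1 hi; omega) (Finset.mem_range.1 hj)
  unfold ind
  by_cases h' : c i j = t
  · rw [if_pos h', if_pos (h.1 h')]
  · rw [if_neg h', if_neg (fun h'' => h' (h.2 h''))]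

theorem ind_tau (x y : C) : ind (tau x) y = ind x (tau y) := by
  unfold ind
  by_cases h : tau x = y
  · rw [if_pos h, if_pos ((tau_inj x y).1 h)]
  · rw [if_neg h, if_neg (fun h' => h ((tau_inj x y).2 h'))]

theorem NN_tr (R W : ℕ) (c : ℕ → ℕ → C) (s : C) : NN W R (tr c) s = NN R W c (tau s) := by
  unfold NN nn tr
  rw [Finset.sum_comm]
  apply Finset.sum_congr rfl
  intro i _
  exact Finset.sum_congr rfl (fun j _ => ind_tau _ _)

theorem NN_lr {R W : ℕ} {c : ℕ → ℕ → C} (hv : Valid R W c) (hW : 1 ≤ W) :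
    NN R W c l = NN R W c r := by
  have h := NN_tb (tr_valid hv) hW
  rw [NN_tr, NN_tr] at h
  exact h

theorem NN_total {R W : ℕ} {c : ℕ → ℕ → C} (hv : Valid R W c) :
    NN R W c o + NN R W c t + NN R W c b + NN R W c l + NN R W c r = R * W := by
  unfold NN nn
  rw [← Finset.sum_add_distrib, ← Finset.sum_add_distrib, ← Finset.sum_add_distrib,
    ← Finset.sum_add_distrib]
  have : ∀ i ∈ range R, (∑ j ∈ range W, ind (c i j) o + ∑ j ∈ range W, ind (c i j) t +
      ∑ j ∈ range W, ind (c i j) b + ∑ j ∈ range W, ind (c i j) l +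
      ∑ j ∈ range W, ind (c i j) r) = W := by
    intro i hi
    rw [← Finset.sum_add_distrib, ← Finset.sum_add_distrib, ← Finset.sum_add_distrib,
      ← Finset.sum_add_distrib]
    have h2 : ∀ j ∈ range W, ind (c i j) o + ind (c i j) t + ind (c i j) b + ind (c i j) l +
        ind (c i j) r = 1 := by
      intro j hj
      have h3 := hv.nw i j (Finset.mem_range.1 hi) (Finset.mem_range.1 hj)
      revert h3
      cases c i j <;> simp [ind]
    rw [Finset.sum_congr rfl h2]
    simp
  rw [Finset.sum_congr rfl this]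
  simp

/-- the main identity -/
theorem total {R W : ℕ} {c : ℕ → ℕ → C} (hv : Valid R W c) (hR : 1 ≤ R) (hW : 1 ≤ W) :
    Xt W c + ∑ i ∈ range (R - 1), Vc W c (i + 1) + Xt W (flip R c) + 3 * NN R W c o =
      R * W + 2 := by
  obtain ⟨n, rfl⟩ : ∃ n, R = n + 1 := ⟨R - 1, by omega⟩
  have e : n + 1 - 1 = n := rfl
  rw [e]
  have hsum : ∑ i ∈ range n, (Vc W c (i + 1) + nn W c o (i + 1) + nn W c o i) =
      ∑ i ∈ range n, (nn W c b i + nn W c r i + nn W c t (i + 1) + nn W c r (i + 1)) :=
    Finset.sum_congr rfl (fun i hi => Vc_eq hv hW i (by have := Finset.mem_range.1 hi; omega))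
  rw [Finset.sum_add_distrib, Finset.sum_add_distrib, Finset.sum_add_distrib,
    Finset.sum_add_distrib, Finset.sum_add_distrib] at hsum
  have a1 : ∀ s, NN (n + 1) W c s = ∑ i ∈ range n, nn W c s i + nn W c s n := fun s =>
    Finset.sum_range_succ _ _
  have a2 : ∀ s, NN (n + 1) W c s = ∑ i ∈ range n, nn W c s (i + 1) + nn W c s 0 := fun s =>
    Finset.sum_range_succ' _ _
  have x1 := Xt_eq hv hW hR
  have x2 := Xt_eq (flip_valid hv hR) hW hR
  rw [nn_flip, nn_flip, nn_flip, nn_flip] at x2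
  simp only [sig, Nat.add_sub_cancel, Nat.sub_zero] at x2
  have h1 : nn W c t n = 0 := by
    unfold nn
    apply Finset.sum_eq_zero
    intro j hj
    unfold ind
    rw [if_neg]
    have := hv.tR j (Finset.mem_range.1 hj)
    simpa using this
  have h2 : nn W c b 0 = 0 := by
    unfold nn
    apply Finset.sum_eq_zero
    intro j hj
    unfold ind
    rw [if_neg (hv.b0 j (Finset.mem_range.1 hj))]
  have t1 := NN_tb hv hR
  have t2 := NN_lr hv hW
  have t3 := NN_total hv
  have b1 := a1 o
  have b2 := a2 o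
  have b3 := a1 b
  have b4 := a1 r
  have b5 := a2 r
  have b6 := a2 t
  omega

theorem Hc_total {R W : ℕ} {c : ℕ → ℕ → C} (hv : Valid R W c) (hW : 1 ≤ W) :
    ∑ i ∈ range R, Hc W c i = ∑ j ∈ range (W - 1), Vc R (tr c) (j + 1) := by
  obtain ⟨m, rfl⟩ : ∃ m, W = m + 1 := ⟨W - 1, by omega⟩
  unfold Hc Vc
  rw [Finset.sum_comm, Finset.sum_range_succ']
  have h0 : ∑ i ∈ range R, costH (xa c i 0) (ya c i 0) (ua c i 0) (c i 0) = 0 := by
    apply Finset.sum_eq_zero
    intro i _
    simp [costH, xa]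
  rw [h0, add_zero]
  apply Finset.sum_congr rfl
  intro j hj
  have hj' := Finset.mem_range.1 hj
  apply Finset.sum_congr rfl
  intro i hi
  have hi' := Finset.mem_range.1 hi
  have hw : c i j ≠ w := hv.nw i j hi' (by omega)
  rcases Nat.eq_zero_or_pos i with h | h
  · subst h
    simp only [costH, xa, ya, ua, tr, Nat.succ_ne_zero, if_false, if_true, Nat.add_sub_cancel]
    rw [if_neg hw]
    rfl
  · obtain ⟨k, rfl⟩ : ∃ k, i = k + 1 := ⟨i - 1, by omega⟩
    simp only [costH, xa, ya, ua, tr, Nat.succ_ne_zero, if_false, Nat.add_sub_cancel]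
    rw [if_neg hw]

end Pool.Agent.R364.Gun
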