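import Pool.Agent.R364.Gun.Data

set_option autoImplicit false
set_option maxRecDepth 100000

namespace Pool.Agent.R364.Gun

noncomputable def any6 (acc : List C) (bh bv : Nat) : Bool :=
  Bool.rec (motive := fun _ => Bool)
    (Bool.rec (motive := fun _ => Bool)
      (Bool.rec (motive := fun _ => Bool)
        (Bool.rec (motive := fun _ => Bool)
          (Bool.rec (motive := fun _ => Bool)
            (memb bh bv acc T5) true (memb bh bv acc T4))
          true (memb bh bv acc T3))
        true (memb bh bv acc T2))
      true (memb bh bv acc T1))
    true (memb bh bv acc T0)

theorem top_ok : top (down any6 7) 14 C.w [] 4 2 = true := by decide +kernel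

end Pool.Agent.R364.Gun
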