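import Mathlib
import Pool.Agent.R364.Gun.Ident
import Pool.Agent.R364.Gun.Top
import Pool.Agent.R364.Gun.L0
import Pool.Agent.R364.Gun.L1
import Pool.Agent.R364.Gun.L2
import Pool.Agent.R364.Gun.L3
import Pool.Agent.R364.Gun.L4
import Pool.Agent.R364.Gun.L5

set_option autoImplicit false

namespace Pool.Agent.R364.Gun

open C Finset

/-- row `i` as a list -/
def rl (W : ℕ) (c : ℕ → ℕ → C) (i : ℕ) : List C := (List.range' 0 W).map (c i)

theorem comp_suffix {R W : ℕ} {c : ℕ → ℕ → C} (hv : Valid R W c) (hW : 1 ≤ W) (i : ℕ)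
    (hi : i + 1 < R) : ∀ k s : ℕ, s + k = W →
    Comp ((List.range' s k).map (c i)) ((List.range' s k).map (c (i + 1)))
      (xa c (i + 1) s) (xa c i s)
      (∑ j ∈ Finset.Ico s W, costH (xa c (i + 1) j) (ya c (i + 1) j) (ua c (i + 1) j) (c (i + 1) j))
      (∑ j ∈ Finset.Ico s W, costV (xa c (i + 1) j) (ya c (i + 1) j) (ua c (i + 1) j)
        (c (i + 1) j)) := by
  intro k
  induction k with
  | zero =>
    intro s hs
    have : s = W := by omega
    subst this
    simp only [List.range'_zero, List.map_nil, Finset.Ico_self, Finset.sum_empty]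
    refine ⟨?_, rfl, rfl⟩
    unfold xa
    rw [if_neg (by omega)]
    exact hv.lW (i + 1) hi
  | succ k ih =>
    intro s hs
    have eH : ∑ j ∈ Finset.Ico s W,
        costH (xa c (i + 1) j) (ya c (i + 1) j) (ua c (i + 1) j) (c (i + 1) j) =
        costH (xa c (i + 1) s) (ya c (i + 1) s) (ua c (i + 1) s) (c (i + 1) s) +
        ∑ j ∈ Finset.Ico (s + 1) W,
          costH (xa c (i + 1) j) (ya c (i + 1) j) (ua c (i + 1) j) (c (i + 1) j) :=
      Finset.sum_eq_sum_Ico_succ_bot (by omega) _
    have eV : ∑ j ∈ Finset.Ico s W,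
        costV (xa c (i + 1) j) (ya c (i + 1) j) (ua c (i + 1) j) (c (i + 1) j) =
        costV (xa c (i + 1) s) (ya c (i + 1) s) (ua c (i + 1) s) (c (i + 1) s) +
        ∑ j ∈ Finset.Ico (s + 1) W,
          costV (xa c (i + 1) j) (ya c (i + 1) j) (ua c (i + 1) j) (c (i + 1) j) :=
      Finset.sum_eq_sum_Ico_succ_bot (by omega) _
    rw [List.range'_succ, List.map_cons, List.map_cons, eH, eV]
    have hu : ua c (i + 1) s = c i s := by simp [ua]
    have hy : ya c (i + 1) s = xa c i s := by simp [ya]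
    have h1 := ih (s + 1) (by omega)
    have e1 : xa c (i + 1) (s + 1) = c (i + 1) s := by simp [xa]
    have e2 : xa c i (s + 1) = c i s := by simp [xa]
    rw [e1, e2] at h1
    refine ⟨⟨hv.nw i s (by omega) (by omega), hv.nw (i + 1) s (by omega) (by omega), ?_⟩,
      _, _, ?_, ?_, h1⟩
    · unfold okb
      rw [decide_eq_true_eq]
      refine ⟨hv.tb i s hi (by omega), ?_, hv.vo i s hi (by omega), ?_⟩
      · rcases Nat.eq_zero_or_pos s with h0 | hpos
        · subst h0
          simp only [xa, if_true]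
          constructor
          · intro h; exact absurd h (by decide)
          · intro h; exact absurd h (hv.r0 (i + 1) (by omega))
        · obtain ⟨m, rfl⟩ : ∃ m, s = m + 1 := ⟨s - 1, by omega⟩
          simp only [xa, Nat.succ_ne_zero, if_false, Nat.add_sub_cancel]
          exact hv.lr (i + 1) m (by omega) (by omega)
      · rintro ⟨h1, h2⟩
        rcases Nat.eq_zero_or_pos s with h0 | hpos
        · subst h0; simp [xa] at h1
        · obtain ⟨m, rfl⟩ : ∃ m, s = m + 1 := ⟨s - 1, by omega⟩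
          simp [xa] at h1
          exact hv.ho (i + 1) m (by omega) (by omega) ⟨h1, h2⟩
    · rw [hu, hy]
    · rw [hu, hy]

theorem comp_row {R W : ℕ} {c : ℕ → ℕ → C} (hv : Valid R W c) (hW : 1 ≤ W) (i : ℕ)
    (hi : i + 1 < R) :
    Comp (rl W c i) (rl W c (i + 1)) w w (Hc W c (i + 1)) (Vc W c (i + 1)) := by
  have h := comp_suffix hv hW i hi W 0 (by omega)
  have e1 : xa c (i + 1) 0 = w := by simp [xa]
  have e2 : xa c i 0 = w := by simp [xa]
  rw [e1, e2] at h
  unfold Hc Vc
  rw [Finset.range_eq_Ico]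
  exact h

theorem tcomp_suffix {R W : ℕ} {c : ℕ → ℕ → C} (hv : Valid R W c) (hW : 1 ≤ W)
    (hR : 1 ≤ R) : ∀ k s : ℕ, s + k = W →
    TComp ((List.range' s k).map (c 0)) (xa c 0 s)
      (∑ j ∈ Finset.Ico s W, costH (xa c 0 j) (ya c 0 j) (ua c 0 j) (c 0 j))
      (∑ j ∈ Finset.Ico s W, costT (xa c 0 j) (c 0 j) + (if c 0 (W - 1) = o then 0 else 1)) := by
  intro k
  induction k with
  | zero =>
    intro s hs
    have : s = W := by omega
    subst this
    simp only [List.range'_zero, List.map_nil, Finset.Ico_self, Finset.sum_empty, zero_add]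
    have hx : xa c 0 s = c 0 (s - 1) := by unfold xa; rw [if_neg (by omega)]
    rw [hx]
    have n1 := hv.nw 0 (s - 1) (by omega) (by omega)
    have n2 := hv.lW 0 (by omega)
    have n3 := hv.b0 (s - 1) (by omega)
    unfold TComp
    by_cases h : c 0 (s - 1) = o
    · left; rw [if_pos h]; exact ⟨h, rfl, rfl⟩
    · right
      rw [if_neg h]
      refine ⟨?_, rfl, rfl⟩
      revert n1 n2 n3 h
      cases c 0 (s - 1) <;> simp
  | succ k ih =>
    intro s hs
    have eH : ∑ j ∈ Finset.Ico s W, costH (xa c 0 j) (ya c 0 j) (ua c 0 j) (c 0 j) =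
        costH (xa c 0 s) (ya c 0 s) (ua c 0 s) (c 0 s) +
        ∑ j ∈ Finset.Ico (s + 1) W, costH (xa c 0 j) (ya c 0 j) (ua c 0 j) (c 0 j) :=
      Finset.sum_eq_sum_Ico_succ_bot (by omega) _
    have eV : ∑ j ∈ Finset.Ico s W, costT (xa c 0 j) (c 0 j) =
        costT (xa c 0 s) (c 0 s) +
        ∑ j ∈ Finset.Ico (s + 1) W, costT (xa c 0 j) (c 0 j) :=
      Finset.sum_eq_sum_Ico_succ_bot (by omega) _
    rw [List.range'_succ, List.map_cons, eH, eV]
    have h1 := ih (s + 1) (by omega)
    have e1 : xa c 0 (s + 1) = c 0 s := by simp [xa]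
    rw [e1] at h1
    have hu : ua c 0 s = w := by simp [ua]
    have hy : ya c 0 s = w := by simp [ya]
    refine ⟨⟨?_, hv.nw 0 s (by omega) (by omega), ?_⟩, _, _, ?_, ?_, h1⟩
    · rcases Nat.eq_zero_or_pos s with h0 | hpos
      · subst h0; simp [xa]
      · obtain ⟨m, rfl⟩ : ∃ m, s = m + 1 := ⟨s - 1, by omega⟩
        simp only [xa, Nat.succ_ne_zero, if_false, Nat.add_sub_cancel]
        exact hv.b0 m (by omega)
    · unfold okt
      rw [decide_eq_true_eq]
      refine ⟨hv.b0 s (by omega), ?_, ?_⟩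
      · rcases Nat.eq_zero_or_pos s with h0 | hpos
        · subst h0
          simp only [xa, if_true]
          constructor
          · intro h; exact absurd h (by decide)
          · intro h; exact absurd h (hv.r0 0 (by omega))
        · obtain ⟨m, rfl⟩ : ∃ m, s = m + 1 := ⟨s - 1, by omega⟩
          simp only [xa, Nat.succ_ne_zero, if_false, Nat.add_sub_cancel]
          exact hv.lr 0 m (by omega) (by omega)
      · rintro ⟨h1, h2⟩
        rcases Nat.eq_zero_or_pos s with h0 | hpos
        · subst h0; simp [xa] at h1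
        · obtain ⟨m, rfl⟩ : ∃ m, s = m + 1 := ⟨s - 1, by omega⟩
          simp [xa] at h1
          exact hv.ho 0 m (by omega) (by omega) ⟨h1, h2⟩
    · rw [hu, hy]
    · rw [add_assoc]

theorem tcomp_row {R W : ℕ} {c : ℕ → ℕ → C} (hv : Valid R W c) (hW : 1 ≤ W) (hR : 1 ≤ R) :
    TComp (rl W c 0) w (Hc W c 0) (Xt W c) := by
  have h := tcomp_suffix hv hW hR W 0 (by omega)
  have e1 : xa c 0 0 = w := by simp [xa]
  rw [e1] at h
  unfold Hc Xt
  rw [Finset.range_eq_Ico]
  exact h

theorem down_sound {R W : ℕ} {c : ℕ → ℕ → C} (hv : Valid R W c) (hW : 1 ≤ W)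
    (k : List C → ℕ → ℕ → Bool) : ∀ (n i bh bv : ℕ), i + n < R →
    ∑ a ∈ range n, Hc W c (i + 1 + a) ≤ bh → ∑ a ∈ range n, Vc W c (i + 1 + a) ≤ bv →
    down k n (rl W c i).reverse bh bv = true →
    k (rl W c (i + n)).reverse (bh - ∑ a ∈ range n, Hc W c (i + 1 + a))
      (bv - ∑ a ∈ range n, Vc W c (i + 1 + a)) = true := by
  intro n
  induction n with
  | zero =>
    intro i bh bv _ _ _ hd
    have hd' : k (rl W c i).reverse bh bv = true := hd
    simpa using hd'
  | succ n ih =>
    intro i bh bv hi hh hvv hd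
    have e0 : ∀ a, i + 1 + (a + 1) = (i + 1) + 1 + a := fun a => by ring
    have sH : ∑ a ∈ range (n + 1), Hc W c (i + 1 + a) =
        ∑ a ∈ range n, Hc W c (i + 1 + 1 + a) + Hc W c (i + 1) := by
      rw [Finset.sum_range_succ', add_zero]
      congr 1
      exact Finset.sum_congr rfl (fun a _ => by rw [e0 a])
    have sV : ∑ a ∈ range (n + 1), Vc W c (i + 1 + a) =
        ∑ a ∈ range n, Vc W c (i + 1 + 1 + a) + Vc W c (i + 1) := by
      rw [Finset.sum_range_succ', add_zero]
      congr 1
      exact Finset.sum_congr rfl (fun a _ => by rw [e0 a])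
    rw [sH] at hh ⊢
    rw [sV] at hvv ⊢
    have hd' : row (down k n) (rev (rl W c i).reverse []) w w [] bh bv = true := hd
    rw [rev_eq, List.reverse_reverse, List.append_nil] at hd'
    have h1 := row_sound (down k n) (rl W c i) (rl W c (i + 1)) w w [] bh bv _ _
      (comp_row hv hW i (by omega)) (by omega) (by omega) hd'
    rw [List.append_nil] at h1
    have h2 := ih (i + 1) (bh - Hc W c (i + 1)) (bv - Vc W c (i + 1)) (by omega)
      (by omega) (by omega) h1
    have e3 : i + 1 + n = i + (n + 1) := by ring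
    rw [e3] at h2
    have e4 : bh - Hc W c (i + 1) - ∑ a ∈ range n, Hc W c (i + 1 + 1 + a) =
        bh - (∑ a ∈ range n, Hc W c (i + 1 + 1 + a) + Hc W c (i + 1)) := by omega
    have e5 : bv - Vc W c (i + 1) - ∑ a ∈ range n, Vc W c (i + 1 + 1 + a) =
        bv - (∑ a ∈ range n, Vc W c (i + 1 + 1 + a) + Vc W c (i + 1)) := by omega
    rw [e4, e5] at h2
    exact h2

theorem no_t {c : ℕ → ℕ → C} (hv : Valid 16 14 c) : hasT (rl 14 c 15).reverse = true → False := by
  intro h
  have h1 := hasT_eq _ h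
  rw [List.mem_reverse, rl, List.mem_map] at h1
  obtain ⟨j, hj, hjt⟩ := h1
  rw [List.mem_range'_1] at hj
  exact hv.tR j (by omega) hjt

theorem comp78 {c : ℕ → ℕ → C} (hv : Valid 16 14 c) :
    Comp (rl 14 c 7) (rl 14 c 8) w w (Hc 14 c 8) (Vc 14 c 8) :=
  comp_row hv (by norm_num) 7 (by norm_num)

theorem low_sound {c : ℕ → ℕ → C} (hv : Valid 16 14 c) (bh bv : ℕ)
    (hh : Hc 14 c 8 + ∑ a ∈ range 7, Hc 14 c (8 + 1 + a) ≤ bh)
    (hvv : Vc 14 c 8 + ∑ a ∈ range 7, Vc 14 c (8 + 1 + a) ≤ bv + 2)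
    (h0 : bv = 0 → Vc 14 c 8 = 0) (hl : low (rl 14 c 7) bh bv = true) : False := by
  rcases Nat.eq_zero_or_pos bv with hb | hb
  · subst hb
    have hl' : row (fun acc bh' bv' => down (fun acc _ _ => hasT acc) 7 acc bh'
        (Nat.succ (Nat.succ bv'))) (rl 14 c 7) w w [] bh 0 = true := hl
    have hz := h0 rfl
    have h1 := row_sound _ (rl 14 c 7) (rl 14 c 8) w w [] bh 0 _ _
      (comp78 hv) (by omega) (by omega) hl'
    rw [List.append_nil] at h1
    have h2 := down_sound hv (by norm_num) (fun acc _ _ => hasT acc) 7 8 _ _ (by norm_num)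
      (by omega) (by omega) h1
    exact no_t hv h2
  · obtain ⟨m, rfl⟩ : ∃ m, bv = m + 1 := ⟨bv - 1, by omega⟩
    have hl' : row (down (fun acc _ _ => hasT acc) 7) (rl 14 c 7) w w [] bh (m + 3) = true := hl
    have h1 := row_sound _ (rl 14 c 7) (rl 14 c 8) w w [] bh (m + 3) _ _
      (comp78 hv) (by omega) (by omega) hl'
    rw [List.append_nil] at h1
    have h2 := down_sound hv (by norm_num) (fun acc _ _ => hasT acc) 7 8 _ _ (by norm_num)
      (by omega) (by omega) h1
    exact no_t hv h2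

theorem brec_or {x y : Bool} (h : Bool.rec (motive := fun _ => Bool) x true y = true) :
    y = true ∨ x = true := by
  cases y
  · exact Or.inr h
  · exact Or.inl rfl

theorem any6_sound (acc : List C) (bh bv : ℕ) (h : any6 acc bh bv = true) :
    ∃ bh' bv', bh ≤ bh' ∧ bv ≤ bv' ∧ low acc.reverse bh' bv' = true := by
  have key : ∀ T : Tr, memb bh bv acc T = true → allT low T [] = true →
      ∃ bh' bv', bh ≤ bh' ∧ bv ≤ bv' ∧ low acc.reverse bh' bv' = true := by
    intro T h1 h2
    obtain ⟨x, y, h3, h4, h5⟩ := memb_sound low bh bv acc T [] h1 h2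
    rw [List.append_nil] at h5
    exact ⟨x, y, h3, h4, h5⟩
  unfold any6 at h
  rcases brec_or h with h | h
  · exact key _ h low0
  rcases brec_or h with h | h
  · exact key _ h low1
  rcases brec_or h with h | h
  · exact key _ h low2
  rcases brec_or h with h | h
  · exact key _ h low3
  rcases brec_or h with h | h
  · exact key _ h low4
  · exact key _ h low5

/-- vertical cost of the upper half, resp. lower half -/
def upV (c : ℕ → ℕ → C) : ℕ := Xt 14 c + ∑ a ∈ range 7, Vc 14 c (0 + 1 + a)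
def loV (c : ℕ → ℕ → C) : ℕ := ∑ a ∈ range 7, Vc 14 c (8 + 1 + a) + Xt 14 (flip 16 c)

theorem half {c : ℕ → ℕ → C} (hv : Valid 16 14 c) (hN : 74 ≤ NN 16 14 c o)
    (hle : upV c ≤ loV c) : False := by
  have ht := total hv (by norm_num) (by norm_num)
  have hH : ∑ i ∈ range 16, Hc 14 c i ≤ 4 := by
    rw [Hc_total hv (by norm_num)]
    have h1 := total (tr_valid hv) (by norm_num) (by norm_num)
    rw [NN_tr] at h1
    simp only [tau] at h1
    omega
  have e15 : ∑ i ∈ range (16 - 1), Vc 14 c (i + 1) =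
      ∑ a ∈ range 7, Vc 14 c (0 + 1 + a) + Vc 14 c 8 + ∑ a ∈ range 7, Vc 14 c (8 + 1 + a) := by
    simp only [Finset.sum_range_succ, Finset.sum_range_zero]
    ring
  have e16 : ∑ i ∈ range 16, Hc 14 c i =
      Hc 14 c 0 + ∑ a ∈ range 7, Hc 14 c (0 + 1 + a) + Hc 14 c 8 +
        ∑ a ∈ range 7, Hc 14 c (8 + 1 + a) := by
    simp only [Finset.sum_range_succ, Finset.sum_range_zero]
    ring
  rw [e15] at ht
  rw [e16] at hH
  unfold upV loV at hle
  have h0 := top_ok
  have hlen : (rl 14 c 0).length = 14 := by simp [rl]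
  rw [← hlen] at h0
  have h1 := top_sound (down any6 7) (rl 14 c 0) w [] 4 2 _ _
    (tcomp_row hv (by norm_num) (by norm_num)) (by omega) (by omega) h0
  rw [List.append_nil] at h1
  have h2 := down_sound hv (by norm_num) any6 7 0 _ _ (by norm_num) (by omega) (by omega) h1
  obtain ⟨bh', bv', h3, h4, h5⟩ := any6_sound _ _ _ h2
  rw [List.reverse_reverse] at h5
  exact low_sound hv bh' bv' (by omega) (by omega) (by omega) h5

theorem loV_flip {c : ℕ → ℕ → C} (hv : Valid 16 14 c) :
    upV (flip 16 c) = loV c ∧ loV (flip 16 c) = upV c := by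
  have key : ∀ i, i + 1 < 16 → Vc 14 (flip 16 c) (i + 1) = Vc 14 c (16 - 1 - i) :=
    fun i hi => Vc_flip hv (by norm_num) i hi
  have hff : Xt 14 (flip 16 (flip 16 c)) = Xt 14 c := by
    have h1 := Xt_eq (flip_valid (flip_valid hv (by norm_num)) (by norm_num))
      (by norm_num) (by norm_num)
    have h2 := Xt_eq hv (by norm_num) (by norm_num)
    simp only [nn_flip, sig] at h1
    norm_num at h1
    omega
  constructor
  · unfold upV loV
    simp only [Finset.sum_range_succ, Finset.sum_range_zero]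
    have k0 := key 0 (by norm_num)
    have k1 := key 1 (by norm_num)
    have k2 := key 2 (by norm_num)
    have k3 := key 3 (by norm_num)
    have k4 := key 4 (by norm_num)
    have k5 := key 5 (by norm_num)
    have k6 := key 6 (by norm_num)
    norm_num at k0 k1 k2 k3 k4 k5 k6 ⊢
    omega
  · unfold upV loV
    rw [hff]
    simp only [Finset.sum_range_succ, Finset.sum_range_zero]
    have k0 := key 8 (by norm_num)
    have k1 := key 9 (by norm_num)
    have k2 := key 10 (by norm_num)
    have k3 := key 11 (by norm_num)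
    have k4 := key 12 (by norm_num)
    have k5 := key 13 (by norm_num)
    have k6 := key 14 (by norm_num)
    norm_num at k0 k1 k2 k3 k4 k5 k6 ⊢
    omega

theorem NN_flip (c : ℕ → ℕ → C) : NN 16 14 (flip 16 c) o = NN 16 14 c o := by
  unfold NN
  simp only [nn_flip, sig]
  exact Finset.sum_range_reflect (fun i => nn 14 c o i) 16

/-- no configuration on the `16 × 14` board has more than `73` holes -/
theorem holes_le {c : ℕ → ℕ → C} (hv : Valid 16 14 c) : NN 16 14 c o < 74 := by
  by_contra hcon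
  push Not at hcon
  rcases Nat.le_total (upV c) (loV c) with h | h
  · exact half hv hcon h
  · have h1 := loV_flip hv
    exact half (flip_valid hv (by norm_num)) (by rw [NN_flip]; exact hcon) (by omega)

end Pool.Agent.R364.Gun
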